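import Mathlib
namespace Pool.Agent.H.MP_3f635c_an
open scoped ENNReal NNReal
open Finset

abbrev A := AddMonoidAlgebra ℂ ℤ

noncomputable def u (d : ℤ) : A := AddMonoidAlgebra.single d 1

noncomputable def act (a : A) (x : ℤ → ℂ) : ℤ → ℂ :=
  fun j => a.coeff.sum fun d c => c * x (j - d)

noncomputable def nw (ρ : ℤ → ℝ≥0∞) (x : ℤ → ℂ) : ℝ≥0∞ := ∑' j, ρ j * ‖x j‖ₑ

noncomputable def W (a : A) : ℝ≥0∞ := nw 1 a.coeff

lemma u_add (d e : ℤ) : u (d + e) = u d * u e := by
  rw [u, u, u, AddMonoidAlgebra.single_mul_single, mul_one]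

lemma u_zero : u 0 = 1 := rfl

lemma act_add (a b : A) (x : ℤ → ℂ) : act (a + b) x = act a x + act b x := by
  funext j
  simp only [act, AddMonoidAlgebra.coeff_add, Pi.add_apply]
  exact Finsupp.sum_add_index' (by simp) (by intros; ring)

lemma act_zero (x : ℤ → ℂ) : act 0 x = 0 := by
  funext j; simp [act]

lemma act_single (d : ℤ) (c : ℂ) (x : ℤ → ℂ) (j : ℤ) :
    act (AddMonoidAlgebra.single d c) x j = c * x (j - d) := by
  simp only [act, AddMonoidAlgebra.coeff_single]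
  exact Finsupp.sum_single_index (by simp)

lemma act_u (d : ℤ) (x : ℤ → ℂ) (j : ℤ) : act (u d) x j = x (j - d) := by
  rw [u, act_single, one_mul]

lemma act_one (x : ℤ → ℂ) : act 1 x = x := by
  funext j; rw [← u_zero, act_u]; simp

lemma act_add' (a : A) (x y : ℤ → ℂ) : act a (x + y) = act a x + act a y := by
  funext j
  simp only [act, Pi.add_apply, mul_add, Finsupp.sum, sum_add_distrib]

lemma act_smul' (a : A) (c : ℂ) (x : ℤ → ℂ) : act a (c • x) = c • act a x := by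
  funext j
  simp only [act, Pi.smul_apply, smul_eq_mul, Finsupp.sum, mul_sum]
  exact sum_congr rfl fun d _ => by ring

noncomputable def actL (a : A) : (ℤ → ℂ) →ₗ[ℂ] (ℤ → ℂ) where
  toFun := act a
  map_add' := act_add' a
  map_smul' := act_smul' a

lemma act_smul (a : A) (c : ℂ) (x : ℤ → ℂ) : act (c • a) x = c • act a x := by
  induction a using AddMonoidAlgebra.induction_linear with
  | zero => simp [act_zero]
  | add a b ha hb => rw [smul_add, act_add, ha, hb, act_add, smul_add]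
  | single d r =>
    funext j
    rw [AddMonoidAlgebra.smul_single, act_single, Pi.smul_apply, act_single, smul_eq_mul,
      smul_eq_mul, mul_assoc]

lemma act_mul (a b : A) (x : ℤ → ℂ) : act (a * b) x = act a (act b x) := by
  induction a using AddMonoidAlgebra.induction_linear with
  | zero => simp [act_zero]
  | add a a' ha ha' => rw [add_mul, act_add, ha, ha', act_add]
  | single d r =>
    induction b using AddMonoidAlgebra.induction_linear with
    | zero => rw [mul_zero, act_zero]; exact (map_zero (actL _)).symm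
    | add b b' hb hb' => rw [mul_add, act_add, hb, hb', act_add, act_add']
    | single e s =>
      funext j
      rw [AddMonoidAlgebra.single_mul_single, act_single, act_single, act_single, mul_assoc]
      congr 3; ring

lemma act_sum {ι : Type} (s : Finset ι) (a : ι → A) (x : ℤ → ℂ) :
    act (∑ i ∈ s, a i) x = ∑ i ∈ s, act (a i) x := by
  classical
  induction s using Finset.induction_on with
  | empty => simp [act_zero]
  | insert i s hi ih => rw [sum_insert hi, sum_insert hi, act_add, ih]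

lemma act_coeff (a b : A) : act a b.coeff = (a * b).coeff := by
  funext j
  rw [AddMonoidAlgebra.coeff_mul_apply_left]
  simp only [act]
  congr 1; funext d c; congr 2; ring

lemma nw_add (ρ : ℤ → ℝ≥0∞) (x y : ℤ → ℂ) : nw ρ (x + y) ≤ nw ρ x + nw ρ y := by
  unfold nw
  rw [← ENNReal.tsum_add]
  refine ENNReal.tsum_le_tsum fun j => ?_
  rw [← mul_add]
  gcongr
  exact enorm_add_le _ _

lemma nw_smul (ρ : ℤ → ℝ≥0∞) (c : ℂ) (x : ℤ → ℂ) : nw ρ (c • x) = ‖c‖ₑ * nw ρ x := by
  unfold nw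
  rw [← ENNReal.tsum_mul_left]
  congr 1; funext j
  simp only [Pi.smul_apply, smul_eq_mul, enorm_mul]; ring

lemma nw_neg (ρ : ℤ → ℝ≥0∞) (x : ℤ → ℂ) : nw ρ (-x) = nw ρ x := by
  simp [nw]

lemma nw_sub (ρ : ℤ → ℝ≥0∞) (x y : ℤ → ℂ) : nw ρ (x - y) ≤ nw ρ x + nw ρ y := by
  rw [sub_eq_add_neg]; exact (nw_add _ _ _).trans (by rw [nw_neg])

lemma nw_zero (ρ : ℤ → ℝ≥0∞) : nw ρ 0 = 0 := by simp [nw]

lemma nw_sum {ι : Type} (ρ : ℤ → ℝ≥0∞) (s : Finset ι) (x : ι → ℤ → ℂ) :
    nw ρ (∑ i ∈ s, x i) ≤ ∑ i ∈ s, nw ρ (x i) := by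
  classical
  induction s using Finset.induction_on with
  | empty => simp [nw_zero]
  | insert i s hi ih =>
    rw [sum_insert hi, sum_insert hi]
    exact (nw_add _ _ _).trans (by gcongr)

lemma nw_mono (ρ : ℤ → ℝ≥0∞) {x y : ℤ → ℂ} (h : ∀ j, ‖x j‖ ≤ ‖y j‖) : nw ρ x ≤ nw ρ y := by
  refine ENNReal.tsum_le_tsum fun j => ?_
  gcongr
  exact enorm_le_iff_norm_le.2 (h j)

lemma nw_le (ρ ρ' : ℤ → ℝ≥0∞) (c : ℝ≥0∞) (x : ℤ → ℂ) (h : ∀ k, x k ≠ 0 → ρ k ≤ c * ρ' k) :
    nw ρ x ≤ c * nw ρ' x := by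
  unfold nw
  rw [← ENNReal.tsum_mul_left]
  refine ENNReal.tsum_le_tsum fun j => ?_
  by_cases hx : x j = 0
  · simp [hx]
  · rw [← mul_assoc]; gcongr; exact h j hx

lemma nw_lsc (ρ : ℤ → ℝ≥0∞) (hρ : ∀ j, ρ j ≠ ⊤) : LowerSemicontinuous (nw ρ) := by
  unfold nw
  refine lowerSemicontinuous_tsum fun j => Continuous.lowerSemicontinuous ?_
  exact (ENNReal.continuous_const_mul (hρ j)).comp (continuous_apply j).enorm

lemma act_cont (a : A) : Continuous (act a) := by
  refine continuous_pi fun j => ?_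
  simp only [act, Finsupp.sum]
  fun_prop

lemma key (ρ ρ' : ℤ → ℝ≥0∞) (c : ℝ≥0∞) (a : A) (x : ℤ → ℂ)
    (h : ∀ d k, a.coeff d ≠ 0 → x k ≠ 0 → ρ (d + k) ≤ c * ρ' k) :
    nw ρ (act a x) ≤ c * W a * nw ρ' x := by
  calc nw ρ (act a x) ≤ ∑' j, ∑ d ∈ a.coeff.support, ‖a.coeff d‖ₑ * (ρ j * ‖x (j - d)‖ₑ) := by
        refine ENNReal.tsum_le_tsum fun j => ?_
        simp only [act, Finsupp.sum]
        calc _ ≤ ρ j * ∑ d ∈ a.coeff.support, ‖a.coeff d * x (j - d)‖ₑ := by
              gcongr; exact enorm_sum_le _ _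
          _ = _ := by
              rw [mul_sum]; exact sum_congr rfl fun d _ => by rw [enorm_mul]; ring
    _ = ∑ d ∈ a.coeff.support, ‖a.coeff d‖ₑ * nw (fun k => ρ (d + k)) x := by
        rw [Summable.tsum_finsetSum (fun _ _ => ENNReal.summable)]
        refine sum_congr rfl fun d _ => ?_
        rw [ENNReal.tsum_mul_left, nw, ← (Equiv.addLeft d).tsum_eq]
        simp
    _ ≤ ∑ d ∈ a.coeff.support, ‖a.coeff d‖ₑ * (c * nw ρ' x) := by
        refine sum_le_sum fun d hd => ?_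
        gcongr
        exact nw_le _ _ _ _ fun k hk => h d k (Finsupp.mem_support_iff.1 hd) hk
    _ = c * (∑ d ∈ a.coeff.support, ‖a.coeff d‖ₑ) * nw ρ' x := by
        rw [← sum_mul]; ring
    _ ≤ _ := by
        gcongr
        simp only [W, nw, Pi.one_apply, one_mul]
        exact ENNReal.sum_le_tsum _

lemma crude (ρ : ℤ → ℝ≥0∞) (hρ : ∀ j, ρ j ≤ 1) (a : A) (x : ℤ → ℂ) :
    nw ρ (act a x) ≤ W a * nw 1 x := by
  simpa using key ρ 1 1 a x fun d k _ _ => by simpa using hρ _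

lemma W_mul (a b : A) : W (a * b) ≤ W a * W b := by
  rw [W, ← act_coeff]; exact crude 1 (by simp) a _

lemma W_add (a b : A) : W (a + b) ≤ W a + W b := by
  simpa [W] using nw_add 1 a.coeff b.coeff

lemma W_sub (a b : A) : W (a - b) ≤ W a + W b := by
  simpa [W] using nw_sub 1 a.coeff b.coeff

lemma W_smul (c : ℂ) (a : A) : W (c • a) = ‖c‖ₑ * W a := by
  simpa [W] using nw_smul 1 c a.coeff

lemma W_sum {ι : Type} (s : Finset ι) (a : ι → A) : W (∑ i ∈ s, a i) ≤ ∑ i ∈ s, W (a i) := by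
  have := nw_sum 1 s fun i => ((a i).coeff : ℤ → ℂ)
  simpa [W, AddMonoidAlgebra.coeff_sum, Finsupp.coe_finset_sum] using this

lemma W_u (d : ℤ) : W (u d) = 1 := by
  simp only [W, nw, u, AddMonoidAlgebra.coeff_single, Pi.one_apply, one_mul]
  rw [tsum_eq_single d]
  · simp
  · intro j hj; simp [Finsupp.single_apply, hj.symm]

def In (a : A) (lo hi : ℤ) : Prop := ∀ d, a.coeff d ≠ 0 → lo ≤ d ∧ d ≤ hi

lemma In.mono {a : A} {lo hi lo' hi' : ℤ} (h : In a lo hi) (h1 : lo' ≤ lo) (h2 : hi ≤ hi') :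
    In a lo' hi' := fun d hd => ⟨h1.trans (h d hd).1, (h d hd).2.trans h2⟩

lemma In_u (d : ℤ) : In (u d) d d := by
  intro e he
  have : e = d := by
    by_contra h
    rw [u, AddMonoidAlgebra.coeff_single, Finsupp.single_apply, if_neg (Ne.symm h)] at he
    exact he rfl
  omega

lemma In.add {a b : A} {lo hi : ℤ} (ha : In a lo hi) (hb : In b lo hi) : In (a + b) lo hi := by
  intro d hd
  by_cases h : a.coeff d = 0
  · exact hb d (by simpa [h] using hd)
  · exact ha d h

lemma In.smul {a : A} {lo hi : ℤ} (c : ℂ) (ha : In a lo hi) : In (c • a) lo hi := by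
  intro d hd
  exact ha d (by intro h; simp [h] at hd)

lemma In.sub {a b : A} {lo hi : ℤ} (ha : In a lo hi) (hb : In b lo hi) : In (a - b) lo hi := by
  have := ha.add (hb.smul (-1))
  simpa [sub_eq_add_neg] using this

lemma In.sum {ι : Type} (s : Finset ι) (a : ι → A) {lo hi : ℤ} (h : ∀ i ∈ s, In (a i) lo hi) :
    In (∑ i ∈ s, a i) lo hi := by
  classical
  induction s using Finset.induction_on with
  | empty => intro d hd; simp at hd
  | insert i s hi ih =>
    rw [sum_insert hi]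
    exact (h i (mem_insert_self _ _)).add (ih fun j hj => h j (mem_insert_of_mem hj))

lemma act_ne {a : A} {x : ℤ → ℂ} {j : ℤ} (h : act a x j ≠ 0) :
    ∃ d, a.coeff d ≠ 0 ∧ x (j - d) ≠ 0 := by
  obtain ⟨d, _, hd⟩ := Finset.exists_ne_zero_of_sum_ne_zero h
  exact ⟨d, left_ne_zero_of_mul hd, right_ne_zero_of_mul hd⟩

lemma In.mul {a b : A} {l1 h1 l2 h2 : ℤ} (ha : In a l1 h1) (hb : In b l2 h2) :
    In (a * b) (l1 + l2) (h1 + h2) := by
  intro d hd
  rw [← act_coeff] at hd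
  obtain ⟨e, he, he'⟩ := act_ne hd
  have := ha e he
  have := hb _ he'
  omega

end Pool.Agent.H.MP_3f635c_an
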