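import Pool.Agent.H.MP_3f635c_an.A
namespace Pool.Agent.H.MP_3f635c_an
open scoped ENNReal NNReal
open Finset

def q : ℕ → ℕ
  | 0 => 100
  | s + 1 => q s ^ 8

def m (s : ℕ) : ℤ := (q s : ℤ) ^ 5

lemma q_ge (s : ℕ) : 20 ≤ q s := by
  induction s with
  | zero => simp [q]
  | succ s ih => exact ih.trans (Nat.le_self_pow (by norm_num) _)

lemma q_ge' (s : ℕ) : 100 ≤ q s := by
  induction s with
  | zero => simp [q]
  | succ s ih => exact ih.trans (Nat.le_self_pow (by norm_num) _)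

lemma q_mono {r s : ℕ} (h : r ≤ s) : q r ≤ q s :=
  monotone_nat_of_le_succ (fun s => Nat.le_self_pow (by norm_num) (q s)) h

lemma q_big {r s : ℕ} (h : r < s) : q r ^ 8 ≤ q s := q_mono (r := r + 1) h

lemma q_two (s : ℕ) : 2 ^ (s + 1) ≤ q s := by
  induction s with
  | zero => simp [q]
  | succ s ih =>
    have := q_ge s
    calc 2 ^ (s + 1 + 1) = 2 ^ (s + 1) * 2 := by ring
      _ ≤ q s * q s ^ 7 := Nat.mul_le_mul ih (le_trans (by omega) (Nat.le_self_pow (by norm_num) _))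
      _ = _ := by rw [q]; ring

lemma q_pair {s r : ℕ} (h : s < r) : q s ^ 2 * 2 ^ s * 2 ^ r ≤ q r := by
  obtain ⟨r, rfl⟩ : ∃ r', r = r' + 1 := ⟨r - 1, by omega⟩
  have h1 : q s ≤ q r := q_mono (by omega)
  have h2 := q_two r
  have h3 : 2 ^ s ≤ q r := le_trans (Nat.pow_le_pow_right (by norm_num) (by omega)) h2
  have h4 := q_ge r
  calc _ ≤ q r ^ 2 * q r * q r := by gcongr
    _ = q r ^ 4 := by ring
    _ ≤ q r ^ 8 := Nat.pow_le_pow_right (by omega) (by norm_num)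

lemma m_ge (s : ℕ) : 20 * (q s : ℤ) ≤ m s := by
  have h : (20 : ℤ) ≤ q s := by exact_mod_cast q_ge s
  unfold m
  calc 20 * (q s : ℤ) ≤ (q s : ℤ) ^ 4 * q s := by
        gcongr; exact h.trans (le_self_pow₀ (by omega) (by norm_num))
    _ = _ := by ring

lemma m_big {r s : ℕ} (h : r < s) : 20 * m r ≤ q s := by
  have h1 : (20 : ℤ) ≤ q r := by exact_mod_cast q_ge r
  have h2 : (q r : ℤ) ^ 8 ≤ q s := by exact_mod_cast q_big h
  unfold m
  calc 20 * (q r : ℤ) ^ 5 ≤ (q r : ℤ) ^ 3 * q r ^ 5 := by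
        gcongr; exact h1.trans (le_self_pow₀ (by omega) (by norm_num))
    _ = (q r : ℤ) ^ 8 := by ring
    _ ≤ _ := h2

lemma q_pos (s : ℕ) : (0 : ℤ) < q s := by have := q_ge s; omega

lemma nat_div_le (a b a' b' : ℕ) (hb : 0 < b) (hb' : 0 < b') (h : a * b' ≤ a' * b) :
    (a : ℝ≥0∞) / b ≤ a' / b' := by
  rw [ENNReal.div_le_iff (by simp; omega) (by simp), div_eq_mul_inv, mul_right_comm,
    ← div_eq_mul_inv, ENNReal.le_div_iff_mul_le (Or.inl (by simp; omega)) (by simp)]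
  exact_mod_cast h

noncomputable def ρ (s : ℕ) (j : ℤ) : ℝ≥0∞ :=
  (q s : ℝ≥0∞) / ((q s + (j - 8 * m s).natAbs : ℕ) : ℝ≥0∞)

noncomputable def e (s : ℕ) : ℝ≥0∞ := (q s : ℝ≥0∞)⁻¹
noncomputable def b (s : ℕ) : ℝ≥0∞ := 2⁻¹ ^ s

lemma ρ_le (s : ℕ) (j : ℤ) : ρ s j ≤ 1 := by
  have := q_ge s
  simpa [ρ] using nat_div_le (q s) (q s + (j - 8 * m s).natAbs) 1 1 (by omega) (by omega) (by omega)

lemma ρ_shift (s c : ℕ) (d k : ℤ) (h : |d| ≤ c * q s) : ρ s (d + k) ≤ (1 + c) * ρ s k := by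
  have := q_ge s
  have h1 : (k - 8 * m s).natAbs ≤ (d + k - 8 * m s).natAbs + c * q s := by
    have : d.natAbs ≤ c * q s := by
      rw [← Int.natCast_natAbs] at h; exact_mod_cast h
    omega
  have := nat_div_le (q s) (q s + (d + k - 8 * m s).natAbs) ((1 + c) * q s)
    (q s + (k - 8 * m s).natAbs) (by omega) (by omega) (by
      rw [mul_assoc, mul_left_comm]
      gcongr
      nlinarith [Nat.zero_le (c * (d + k - 8 * m s).natAbs)])
  rw [ρ, ρ, ← mul_div_assoc]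
  simpa using this

lemma ρ_far (s : ℕ) (j : ℤ) (h : j ≤ 7 * m s ∨ 9 * m s ≤ j) : ρ s j ≤ e s ^ 4 := by
  have := q_ge s
  have h1 : q s ^ 5 ≤ (j - 8 * m s).natAbs := by
    have : m s ≤ ((j - 8 * m s).natAbs : ℤ) := by omega
    unfold m at this; exact_mod_cast this
  have := nat_div_le (q s) (q s + (j - 8 * m s).natAbs) 1 (q s ^ 4) (by omega) (by positivity)
    (by nlinarith)
  rw [ρ, e, ← ENNReal.inv_pow]
  simpa using this

lemma ρ_near (s : ℕ) (j : ℤ) (h : 8 * m s ≤ j) (h' : j ≤ 8 * m s + 2 * q s) : 1 ≤ 3 * ρ s j := by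
  have := q_ge s
  have := nat_div_le 1 1 (3 * q s) (q s + (j - 8 * m s).natAbs) (by omega) (by omega) (by omega)
  rw [ρ, ← mul_div_assoc]
  simpa using this

lemma qe (s : ℕ) : (q s : ℝ≥0∞) * e s = 1 := by
  have := q_ge s
  exact ENNReal.mul_inv_cancel (by simp; omega) (by simp)

lemma e_le (s : ℕ) : e s ≤ b s := by
  rw [e, b, ← ENNReal.inv_pow]
  refine ENNReal.inv_le_inv.2 ?_
  have : 2 ^ s ≤ q s := le_trans (Nat.pow_le_pow_right (by norm_num) (by omega)) (q_two s)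
  exact_mod_cast this

lemma e_one (s : ℕ) : e s ≤ 1 := by
  have := q_ge s
  rw [e]; refine ENNReal.inv_le_one.2 ?_
  exact_mod_cast (by omega : 1 ≤ q s)

lemma e_pair {s r : ℕ} (h : s < r) : (q s : ℝ≥0∞) ^ 2 * e r ≤ b s * b r := by
  have := q_ge r
  have := nat_div_le (q s ^ 2) (q r) 1 (2 ^ s * 2 ^ r) (by omega) (by positivity)
    (by have := q_pair h; nlinarith)
  rw [e, b, b, ← ENNReal.inv_pow, ← ENNReal.inv_pow, ← ENNReal.mul_inv (by simp) (by simp),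
    ← div_eq_mul_inv]
  simpa using this

lemma b_sum : ∑' s, b s = 2 := by
  simp only [b]; rw [ENNReal.tsum_geometric]; simp

noncomputable def v (ζ : Circle) (d : ℤ) : A := ((ζ ^ d : Circle) : ℂ) • u d

lemma v_add (ζ : Circle) (d d' : ℤ) : v ζ (d + d') = v ζ d * v ζ d' := by
  simp only [v, zpow_add, Circle.coe_mul, u_add, smul_mul_smul_comm]

lemma v_one (d : ℤ) : v 1 d = u d := by simp [v]

lemma v_nat (ζ : Circle) (i : ℕ) : v ζ i = v ζ 1 ^ i := by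
  induction i with
  | zero => simp [v, u_zero]
  | succ i ih => rw [Nat.cast_succ, v_add, ih, pow_succ]

lemma circ_enorm (ζ : Circle) : ‖(ζ : ℂ)‖ₑ = 1 := by
  rw [← ofReal_norm, Circle.norm_coe]; simp

lemma W_v (ζ : Circle) (d : ℤ) : W (v ζ d) = 1 := by
  rw [v, W_smul, W_u, circ_enorm, mul_one]

lemma In_v (ζ : Circle) (d : ℤ) : In (v ζ d) d d := (In_u d).smul _

noncomputable def D (ζ : Circle) (s : ℕ) : A := (q s : ℂ)⁻¹ • ∑ i ∈ range (q s), v ζ i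

noncomputable def g (ζ : Circle) (s : ℕ) : A := D ζ s * (v ζ (4 * m s) - v ζ (-(4 * m s)))

noncomputable def a' (s : ℕ) : A := D 1 s * u (12 * m s)

noncomputable def f (s : ℕ) : A := (q s : ℂ)⁻¹ • (g 1 s + a' s)

lemma qinv (s : ℕ) : ‖(q s : ℂ)⁻¹‖ₑ = e s := by
  have := q_ge s
  rw [enorm_inv (by simp; omega), e, enorm_eq_nnnorm]; simp

lemma W_D (ζ : Circle) (s : ℕ) : W (D ζ s) ≤ 1 := by
  rw [D, W_smul, qinv, ← qe s, mul_comm]
  gcongr
  refine (W_sum _ _).trans ?_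
  simp [W_v]

lemma In_D (ζ : Circle) (s : ℕ) : In (D ζ s) 0 (q s) := by
  unfold D
  refine In.smul _ (In.sum _ _ fun i hi => ?_)
  have := mem_range.1 hi
  exact (In_v ζ i).mono (by omega) (by omega)

lemma W_g (ζ : Circle) (s : ℕ) : W (g ζ s) ≤ 2 := by
  refine (W_mul _ _).trans ?_
  calc _ ≤ 1 * (W (v ζ (4 * m s)) + W (v ζ (-(4 * m s)))) := by
        gcongr; exacts [W_D _ _, W_sub _ _]
    _ = 2 := by rw [W_v, W_v]; norm_num

lemma In_g (ζ : Circle) (s : ℕ) : In (g ζ s) (-(4 * m s)) (5 * m s) := by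
  have := m_ge s
  have := q_pos s
  exact ((In_D ζ s).mul (((In_v ζ _).mono (by omega) le_rfl).sub
    ((In_v ζ _).mono le_rfl (by omega)))).mono (by omega) (by omega)

lemma W_a' (s : ℕ) : W (a' s) ≤ 1 := by
  refine (W_mul _ _).trans ?_
  rw [W_u, mul_one]; exact W_D _ _

lemma In_a' (s : ℕ) : In (a' s) (12 * m s) (13 * m s) := by
  have := m_ge s
  have := q_pos s
  exact ((In_D 1 s).mul (In_u _)).mono (by omega) (by omega)

lemma W_f (s : ℕ) : W (f s) ≤ 3 * e s := by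
  rw [f, W_smul, qinv, mul_comm]
  gcongr
  refine (W_add _ _).trans ?_
  calc _ ≤ (2 : ℝ≥0∞) + 1 := add_le_add (W_g _ _) (W_a' _)
    _ = 3 := by norm_num

lemma In_f (s : ℕ) : In (f s) (-(4 * m s)) (13 * m s) := by
  have := m_ge s
  have := q_pos s
  exact (((In_g 1 s).mono le_rfl (by omega)).add ((In_a' s).mono (by omega) le_rfl)).smul _

lemma geo (ζ : Circle) (s : ℕ) : (1 - v ζ 1) * D ζ s = (q s : ℂ)⁻¹ • (1 - v ζ (q s)) := by
  rw [D, mul_smul_comm]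
  simp only [v_nat ζ]
  rw [mul_neg_geom_sum]

lemma W_DD (ζ : Circle) (s : ℕ) : ‖1 - (ζ : ℂ)‖ₑ * W (D ζ s * D 1 s) ≤ 4 * e s := by
  have h1 := geo ζ s
  have h2 := geo 1 s
  have h3 : v ζ 1 = (ζ : ℂ) • v 1 1 := by simp [v]
  have h : (1 - (ζ : ℂ)) • (D ζ s * D 1 s) = (q s : ℂ)⁻¹ • ((1 - v ζ (q s)) * D 1 s -
      (ζ : ℂ) • ((1 - v 1 (q s)) * D ζ s)) := by
    rw [h3] at h1
    simp only [Algebra.smul_def, map_sub, map_one] at h1 h2 ⊢
    linear_combination D 1 s * h1 - algebraMap ℂ A ζ * D ζ s * h2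
  have h4 : ∀ ξ ξ' : Circle, W ((1 - v ξ (q s)) * D ξ' s) ≤ 2 := fun ξ ξ' => by
    refine (W_mul _ _).trans ?_
    calc _ ≤ (W 1 + W (v ξ (q s))) * 1 := by gcongr; exacts [W_sub _ _, W_D _ _]
      _ = 2 := by rw [← u_zero, W_u, W_v]; norm_num
  rw [← W_smul, h, W_smul, qinv, mul_comm]
  gcongr
  refine (W_sub _ _).trans ?_
  rw [W_smul, circ_enorm, one_mul]
  calc _ ≤ (2 : ℝ≥0∞) + 2 := add_le_add (h4 _ _) (h4 _ _)
    _ = 4 := by norm_num

lemma W_DD' (ζ : Circle) (s : ℕ) : W (D ζ s * D 1 s) ≤ 1 :=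
  (W_mul _ _).trans (by simpa using mul_le_mul' (W_D ζ s) (W_D 1 s))

lemma In_DD (ζ : Circle) (s : ℕ) : In (D ζ s * D 1 s) 0 (2 * q s) :=
  ((In_D ζ s).mul (In_D 1 s)).mono (by omega) (by omega)

lemma pow_sub (ζ : Circle) (n : ℕ) : ‖(ζ : ℂ) ^ n - 1‖ ≤ n * ‖1 - (ζ : ℂ)‖ := by
  induction n with
  | zero => simp
  | succ n ih =>
    have : (ζ : ℂ) ^ (n + 1) - 1 = ((ζ : ℂ) ^ n - 1) - ζ ^ n * (1 - ζ) := by ring
    rw [this]
    refine (norm_sub_le _ _).trans ?_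
    rw [norm_mul, norm_pow, Circle.norm_coe]
    push_cast; rw [one_pow]; linarith

noncomputable def cc (ζ : Circle) (s : ℕ) : ℂ :=
  ((ζ ^ (4 * m s) : Circle) : ℂ) - ((ζ ^ (-(4 * m s)) : Circle) : ℂ)

noncomputable def ph (y : ℝ) : ℝ := y / (1 + y)

lemma main_le (ζ : Circle) (s : ℕ) : ‖cc ζ s‖ₑ * W (D ζ s * D 1 s) ≤
    ENNReal.ofReal (30 * (ph (q (s + 1) * ‖1 - (ζ : ℂ)‖) - ph (q s * ‖1 - (ζ : ℂ)‖))) := by
  set t := ‖1 - (ζ : ℂ)‖ with ht
  have ht0 : 0 ≤ t := norm_nonneg _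
  have hW := W_DD' ζ s
  have hW' := W_DD ζ s
  have hq : (20 : ℝ) ≤ q s := by exact_mod_cast q_ge s
  obtain ⟨w, hw⟩ : ∃ w : ℝ≥0, W (D ζ s * D 1 s) = w :=
    ⟨_, (ENNReal.coe_toNNReal (ne_top_of_le_ne_top (by simp) hW)).symm⟩
  rw [hw] at hW hW' ⊢
  have hw1 : (w : ℝ) ≤ 1 := by exact_mod_cast hW
  have hw2 : (q s * t) * w ≤ 4 := by
    have : (q s : ℝ≥0∞) * (‖1 - (ζ : ℂ)‖ₑ * w) ≤ 4 := by
      calc _ ≤ (q s : ℝ≥0∞) * (4 * e s) := by gcongr
        _ = 4 := by rw [mul_left_comm, qe, mul_one]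
    rw [enorm_eq_nnnorm] at this
    have : (q s : ℝ≥0) * (‖1 - (ζ : ℂ)‖₊ * w) ≤ 4 := by exact_mod_cast this
    have : (q s : ℝ) * (‖1 - (ζ : ℂ)‖ * w) ≤ 4 := by exact_mod_cast this
    linarith
  have hc1 : ‖cc ζ s‖ ≤ 2 := by
    refine (norm_sub_le _ _).trans ?_
    rw [Circle.norm_coe, Circle.norm_coe]; norm_num
  have hb : (8 * q s ^ 5 : ℕ) ≤ q (s + 1) := by
    have := m_big (show s < s + 1 by omega)
    have h2 := m_ge s
    have h3 := q_pos s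
    have : (8 * (q s : ℤ) ^ 5) ≤ q (s + 1) := by unfold m at this h2; omega
    exact_mod_cast this
  have hc2 : ‖cc ζ s‖ ≤ q (s + 1) * t := by
    have : cc ζ s = ((ζ ^ (-(4 * m s)) : Circle) : ℂ) * ((ζ : ℂ) ^ (8 * q s ^ 5) - 1) := by
      rw [mul_sub, mul_one, cc, ← Circle.coe_pow, ← Circle.coe_mul, ← zpow_natCast, ← zpow_add]
      congr 3; unfold m; push_cast; ring
    rw [this, norm_mul, Circle.norm_coe, one_mul]
    refine (pow_sub _ _).trans ?_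
    gcongr
  have hab : 2 * (q s * t) ≤ q (s + 1) * t := by
    rw [← mul_assoc]; gcongr
    have := m_big (show s < s + 1 by omega)
    have h2 := m_ge s
    have h3 := q_pos s
    have : (2 * (q s : ℤ)) ≤ q (s + 1) := by omega
    exact_mod_cast this
  set x := (q s : ℝ) * t
  set y := (q (s + 1) : ℝ) * t
  have hx : 0 ≤ x := by positivity
  have hy : 0 ≤ y := by positivity
  rw [← ofReal_norm, ← ENNReal.ofReal_coe_nnreal, ← ENNReal.ofReal_mul (norm_nonneg _)]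
  refine ENNReal.ofReal_le_ofReal ?_
  have h5 : ‖cc ζ s‖ * (1 + y) ≤ 3 * y := by nlinarith [norm_nonneg (cc ζ s)]
  have h6 : w * (1 + x) ≤ 5 := by nlinarith
  have h7 : ph y - ph x = (y - x) / ((1 + y) * (1 + x)) := by unfold ph; field_simp; ring
  rw [h7, ← mul_div_assoc, le_div_iff₀ (by positivity)]
  have := mul_le_mul h5 h6 (by positivity) (by positivity)
  nlinarith

lemma main_sum (ζ : Circle) : ∑' s, ‖cc ζ s‖ₑ * W (D ζ s * D 1 s) ≤ 30 := by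
  refine (ENNReal.tsum_le_tsum (main_le ζ)).trans ?_
  set t := ‖1 - (ζ : ℂ)‖ with ht
  have ht0 : 0 ≤ t := norm_nonneg _
  refine ENNReal.tsum_le_of_sum_range_le fun n => ?_
  have hp : ∀ x y : ℝ, 0 ≤ x → x ≤ y → ph x ≤ ph y := fun x y hx hy => by
    unfold ph; rw [div_le_div_iff₀ (by linarith) (by linarith)]; nlinarith
  rw [← ENNReal.ofReal_sum_of_nonneg (fun s _ => by
    have := hp (q s * t) (q (s + 1) * t) (by positivity) (by gcongr; exact q_mono (by omega))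
    linarith), ← mul_sum, sum_range_sub (fun s => ph (q s * t))]
  have h1 : ph (q n * t) ≤ 1 := by unfold ph; rw [div_le_one (by positivity)]; linarith
  have h2 : 0 ≤ ph (q 0 * t) := by unfold ph; positivity
  calc _ ≤ ENNReal.ofReal 30 := ENNReal.ofReal_le_ofReal (by linarith)
    _ = 30 := by simp

end Pool.Agent.H.MP_3f635c_an
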