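import Pool.Agent.H.MP_3f635c_an.B
namespace Pool.Agent.H.MP_3f635c_an
open scoped ENNReal NNReal
open Finset

noncomputable def t (s : ℕ) : ℝ≥0∞ := (((NNReal.sqrt (s + 1))⁻¹ : ℝ≥0) : ℝ≥0∞)

lemma t_le (s : ℕ) : t s ≤ 1 := by
  rw [t, ENNReal.coe_le_one_iff]
  exact inv_le_one_of_one_le₀ (NNReal.one_le_sqrt.2 (by simp))

noncomputable def La (s : ℕ) : ℝ≥0∞ := (q s : ℝ≥0∞) ^ 2 * t s ^ 2
noncomputable def Mu (s : ℕ) : ℝ≥0∞ := (q s : ℝ≥0∞) * t s
noncomputable def N2 (x : ℤ → ℂ) : ℝ≥0∞ := ∑' s, La s * nw (ρ s) x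
noncomputable def N1z (ζ : Circle) (x : ℤ → ℂ) : ℝ≥0∞ :=
  ∑' s, Mu s * nw (ρ s) (act (g ζ s) x)
noncomputable def N1 (x : ℤ → ℂ) : ℝ≥0∞ := ⨆ ζ, N1z ζ x
noncomputable def N (x : ℤ → ℂ) : ℝ≥0∞ := nw 1 x + N2 x + N1 x
def Pos (x : ℤ → ℂ) : Prop := ∀ j < 0, x j = 0
def P (x : ℤ → ℂ) : ℤ → ℂ := fun j => if 0 ≤ j then x j else 0

lemma Pos.le {x : ℤ → ℂ} (hx : Pos x) {k : ℤ} (h : x k ≠ 0) : 0 ≤ k := by
  by_contra h'; exact h (hx k (by omega))

lemma La_le (s : ℕ) : La s ≤ (q s : ℝ≥0∞) ^ 2 :=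
  mul_le_of_le_one_right' (pow_le_one₀ (by simp) (t_le s))

lemma Mu_le (s : ℕ) : Mu s ≤ (q s : ℝ≥0∞) := mul_le_of_le_one_right' (t_le s)

lemma q_sq (s : ℕ) : (q s : ℝ≥0∞) ≤ (q s : ℝ≥0∞) ^ 2 := by
  have := q_ge s
  exact_mod_cast Nat.le_self_pow (by norm_num) (q s)

lemma qe4 (s : ℕ) : (q s : ℝ≥0∞) ^ 2 * e s ^ 4 ≤ b s * b s := by
  calc _ = ((q s : ℝ≥0∞) * e s) ^ 2 * (e s * e s) := by ring
    _ ≤ _ := by rw [qe, one_pow, one_mul]; exact mul_le_mul' (e_le s) (e_le s)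

lemma b_one (s : ℕ) : b s ≤ 1 := pow_le_one₀ (by simp) (by simp)

lemma far (s : ℕ) (a : A) (x : ℤ → ℂ)
    (h : ∀ d k, a.coeff d ≠ 0 → x k ≠ 0 → d + k ≤ 7 * m s ∨ 9 * m s ≤ d + k) :
    nw (ρ s) (act a x) ≤ e s ^ 4 * W a * nw 1 x :=
  key _ _ _ a x fun d k h1 h2 => by simpa using ρ_far s _ (h d k h1 h2)

lemma low {r s : ℕ} (h : r < s) (y : ℤ → ℂ) :
    nw (ρ s) (act (f r) y) ≤ 6 * b r * nw (ρ s) y := by
  refine (key _ (ρ s) (1 + (1 : ℕ)) _ y fun d k h1 _ => ρ_shift s 1 d k ?_).trans ?_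
  · have := In_f r d h1
    have := m_big h
    have := m_ge r
    have := q_pos r
    rw [abs_le]; omega
  · refine mul_le_mul' ?_ le_rfl
    calc _ ≤ (1 + (1 : ℕ) : ℝ≥0∞) * (3 * b r) := by
          gcongr; exact (W_f r).trans (by gcongr; exact e_le r)
      _ = _ := by norm_num; ring

lemma pair2 (r s : ℕ) {x : ℤ → ℂ} (hx : Pos x) : La s * nw (ρ s) (act (f r) x) ≤
    6 * b r * (La s * nw (ρ s) x) + 3 * (b s * b r) * nw 1 x +
      if r = s then t r * (Mu s * nw (ρ s) (act (g 1 s) x)) else 0 := by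
  rcases lt_trichotomy r s with h | rfl | h
  · refine le_trans ?_ (le_self_add.trans le_self_add)
    rw [mul_left_comm]; gcongr; exact low h x
  · rw [if_pos rfl, add_assoc]
    refine le_trans ?_ le_add_self
    rw [f, act_smul, nw_smul, qinv, act_add]
    have h1 : nw (ρ r) (act (a' r) x) ≤ e r ^ 4 * nw 1 x := by
      refine (far r _ x fun d k h1 h2 => ?_).trans ?_
      · have := In_a' r d h1
        have := hx.le h2
        have := m_ge r
        have := q_pos r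
        omega
      · gcongr; exact mul_le_of_le_one_right' (W_a' r)
    calc _ ≤ La r * (e r * (nw (ρ r) (act (g 1 r) x) + e r ^ 4 * nw 1 x)) := by
          gcongr; exact (nw_add _ _ _).trans (by gcongr)
      _ = (La r * e r ^ 4) * e r * nw 1 x +
          (q r * e r) * (t r * (Mu r * nw (ρ r) (act (g 1 r) x))) := by rw [La, Mu]; ring
      _ ≤ _ := by
          rw [qe, one_mul]; refine add_le_add (mul_le_mul' ?_ le_rfl) le_rfl
          calc _ ≤ ((q r : ℝ≥0∞) ^ 2 * e r ^ 4) * 3 := by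
                gcongr; exacts [La_le r, (e_one r).trans (by norm_num)]
            _ ≤ _ := by rw [mul_comm]; exact mul_le_mul' le_rfl (qe4 r)
  · refine le_trans ?_ (le_add_self.trans le_self_add)
    calc _ ≤ (q s : ℝ≥0∞) ^ 2 * (3 * e r * nw 1 x) := by
          gcongr
          · exact La_le s
          · exact (crude _ (ρ_le s) _ _).trans (by gcongr; exact W_f r)
      _ = 3 * ((q s : ℝ≥0∞) ^ 2 * e r) * nw 1 x := by ring
      _ ≤ _ := mul_le_mul' (mul_le_mul' le_rfl (e_pair h)) le_rfl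

noncomputable def mid (s : ℕ) (k : ℤ) : ℝ≥0∞ := if m s < k ∧ k < 17 * m s then 1 else 0

lemma mid_sum (x : ℤ → ℂ) : ∑' s, nw (mid s) x ≤ nw 1 x := by
  simp only [nw]
  rw [ENNReal.tsum_comm]
  refine ENNReal.tsum_le_tsum fun k => ?_
  rw [ENNReal.tsum_mul_right]
  gcongr
  by_cases h : ∃ s, m s < k ∧ k < 17 * m s
  · obtain ⟨s, hs⟩ := h
    rw [tsum_eq_single s]
    · simp [mid, hs]
    · intro r hr
      rw [mid, if_neg]
      intro h'
      have := m_ge r
      have := m_ge s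
      have := q_pos r
      have := q_pos s
      rcases lt_or_gt_of_ne hr with h | h
      · have := m_big h; omega
      · have := m_big h; omega
  · push Not at h
    have : ∀ s, mid s k = 0 := fun s => by
      rw [mid, if_neg]; intro h'; have := h s h'.1; omega
    simp [this]

noncomputable def lo (ζ : Circle) (s : ℕ) : A :=
  ((ζ ^ (-(4 * m s)) : Circle) : ℂ) • u (-(8 * m s)) - ((ζ ^ (4 * m s) : Circle) : ℂ) • u 0 -
    ((ζ ^ (-(4 * m s)) : Circle) : ℂ) • u 0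

lemma h_eq (ζ : Circle) (s : ℕ) : g ζ s * (g 1 s + a' s) =
    cc ζ s • (u (8 * m s) * (D ζ s * D 1 s)) +
      (((ζ ^ (4 * m s) : Circle) : ℂ) • u (16 * m s)) * (D ζ s * D 1 s) +
      lo ζ s * (D ζ s * D 1 s) := by
  have h0 : u (4 * m s) * u (-(4 * m s)) = 1 := by rw [← u_add]; simp [u_zero]
  have h8 : u (8 * m s) = u (4 * m s) * u (4 * m s) := by rw [← u_add]; congr 1; ring
  have h8' : u (-(8 * m s)) = u (-(4 * m s)) * u (-(4 * m s)) := by rw [← u_add]; congr 1; ring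
  have h12 : u (12 * m s) = u (4 * m s) * u (8 * m s) := by rw [← u_add]; congr 1; ring
  have h16 : u (16 * m s) = u (8 * m s) * u (8 * m s) := by rw [← u_add]; congr 1; ring
  rw [g, g, a', v_one, v_one, v, v, lo, cc, h16, h12, h8, h8', u_zero]
  simp only [Algebra.smul_def, map_sub]
  set w := u (4 * m s)
  set c1 := algebraMap ℂ A ((ζ ^ (4 * m s) : Circle) : ℂ)
  set c2 := algebraMap ℂ A ((ζ ^ (-(4 * m s)) : Circle) : ℂ)
  linear_combination (D ζ s * D 1 s) * (-c1 - c2 - c2 * w ^ 2) * h0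

lemma W_lo (ζ : Circle) (s : ℕ) : W (lo ζ s) ≤ 3 := by
  refine (W_sub _ _).trans ((add_le_add (W_sub _ _) le_rfl).trans ?_)
  simp only [W_smul, W_u, circ_enorm]; norm_num

lemma In_lo (ζ : Circle) (s : ℕ) : In (lo ζ s) (-(8 * m s)) 0 := by
  have := m_ge s
  have := q_pos s
  exact ((((In_u _).mono le_rfl (by omega)).smul _).sub
    (((In_u 0).mono (by omega) le_rfl).smul _)).sub (((In_u 0).mono (by omega) le_rfl).smul _)

lemma nw_addw (ρ1 ρ2 : ℤ → ℝ≥0∞) (x : ℤ → ℂ) : nw (ρ1 + ρ2) x = nw ρ1 x + nw ρ2 x := by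
  simp only [nw, Pi.add_apply, add_mul, ENNReal.tsum_add]

lemma e4 (s : ℕ) : e s ^ 4 ≤ b s :=
  (pow_le_of_le_one (by simp) (e_one s) (by norm_num)).trans (e_le s)

lemma Hb (ζ : Circle) (s : ℕ) {x : ℤ → ℂ} (hx : Pos x) :
    nw (ρ s) (act (g ζ s * (g 1 s + a' s)) x) ≤
      (‖cc ζ s‖ₑ * W (D ζ s * D 1 s) + 4 * b s) * nw 1 x + 3 * nw (mid s) x := by
  have := m_ge s
  have := q_pos s
  rw [h_eq, act_add, act_add]
  have h1 : nw (ρ s) (act (cc ζ s • (u (8 * m s) * (D ζ s * D 1 s))) x) ≤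
      ‖cc ζ s‖ₑ * W (D ζ s * D 1 s) * nw 1 x := by
    refine (crude _ (ρ_le s) _ _).trans ?_
    rw [W_smul]; gcongr
    exact (W_mul _ _).trans (by rw [W_u, one_mul])
  have h2 : nw (ρ s) (act ((((ζ ^ (4 * m s) : Circle) : ℂ) • u (16 * m s)) * (D ζ s * D 1 s)) x)
      ≤ b s * nw 1 x := by
    refine (far s _ x fun d k h1 h2 => ?_).trans ?_
    · have := (((In_u (16 * m s)).smul _).mul (In_DD ζ s)) d h1
      have := hx.le h2
      omega
    · gcongr
      refine le_trans (mul_le_of_le_one_right' ((W_mul _ _).trans ?_)) (e4 s)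
      rw [W_smul, W_u, circ_enorm, one_mul, one_mul]; exact W_DD' _ _
  have h3 : nw (ρ s) (act (lo ζ s * (D ζ s * D 1 s)) x) ≤
      3 * (b s * nw 1 x + nw (mid s) x) := by
    refine (key _ ((fun _ => b s) + mid s) 1 _ x fun d k h1 h2 => ?_).trans ?_
    · have := ((In_lo ζ s).mul (In_DD ζ s)) d h1
      have := hx.le h2
      rw [one_mul, Pi.add_apply, mid]
      split_ifs with h
      · exact (ρ_le _ _).trans le_add_self
      · rw [add_zero]; exact (ρ_far s _ (by omega)).trans (e4 s)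
    · rw [one_mul, nw_addw]
      gcongr
      · exact (W_mul _ _).trans (by simpa using mul_le_mul' (W_lo ζ s) (W_DD' ζ s))
      · exact nw_le _ _ _ _ fun k _ => by simp
  calc _ ≤ _ := (nw_add _ _ _).trans (add_le_add ((nw_add _ _ _).trans (add_le_add h1 h2)) h3)
    _ = _ := by ring

lemma H_sum (ζ : Circle) {x : ℤ → ℂ} (hx : Pos x) :
    ∑' s, nw (ρ s) (act (g ζ s * (g 1 s + a' s)) x) ≤ 41 * nw 1 x := by
  refine (ENNReal.tsum_le_tsum fun s => Hb ζ s hx).trans ?_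
  rw [ENNReal.tsum_add, ENNReal.tsum_mul_right, ENNReal.tsum_add, ENNReal.tsum_mul_left,
    ENNReal.tsum_mul_left, b_sum]
  calc _ ≤ (30 + 4 * 2) * nw 1 x + 3 * nw 1 x := by
        gcongr; exacts [main_sum ζ, mid_sum x]
    _ = _ := by ring

lemma pair1 (ζ : Circle) (r s : ℕ) (x : ℤ → ℂ) :
    Mu s * nw (ρ s) (act (g ζ s) (act (f r) x)) ≤
    6 * b r * (Mu s * nw (ρ s) (act (g ζ s) x)) + 6 * (b s * b r) * nw 1 x +
      if r = s then t r * nw (ρ s) (act (g ζ s * (g 1 s + a' s)) x) else 0 := by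
  rcases lt_trichotomy r s with h | rfl | h
  · refine le_trans ?_ (le_self_add.trans le_self_add)
    rw [mul_left_comm, ← act_mul, mul_comm (g ζ s), act_mul]; gcongr; exact low h _
  · rw [if_pos rfl]
    refine le_trans (le_of_eq ?_) le_add_self
    rw [← act_mul, f, mul_smul_comm, act_smul, nw_smul, qinv, Mu]
    calc _ = (q r * e r) * (t r * nw (ρ r) (act (g ζ r * (g 1 r + a' r)) x)) := by ring
      _ = _ := by rw [qe, one_mul]
  · refine le_trans ?_ (le_add_self.trans le_self_add)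
    calc _ ≤ (q s : ℝ≥0∞) ^ 2 * (2 * (3 * e r * nw 1 x)) := by
          gcongr
          · exact (Mu_le s).trans (q_sq s)
          · refine (crude _ (ρ_le s) _ _).trans ?_
            gcongr
            · exact W_g _ _
            · exact (crude _ (by simp) _ _).trans (by gcongr; exact W_f r)
      _ = 6 * ((q s : ℝ≥0∞) ^ 2 * e r) * nw 1 x := by ring
      _ ≤ _ := mul_le_mul' (mul_le_mul' le_rfl (e_pair h)) le_rfl

lemma sum_pair (I : Finset ℕ) (τ β c n : ℝ≥0∞) (hτ : ∀ r ∈ I, t r ≤ τ) (hβ : ∑ r ∈ I, b r ≤ β)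
    (F : ℕ → ℕ → ℝ≥0∞) (X Y : ℕ → ℝ≥0∞)
    (h : ∀ r s, F s r ≤ 6 * b r * X s + c * (b s * b r) * n + if r = s then t r * Y s else 0) :
    ∑' s, ∑ r ∈ I, F s r ≤ 6 * β * ∑' s, X s + 2 * c * β * n + τ * ∑' s, Y s := by
  calc _ ≤ ∑' s, (6 * β * X s + (c * β * n) * b s + τ * Y s) := by
        refine ENNReal.tsum_le_tsum fun s => (sum_le_sum fun r _ => h r s).trans ?_
        rw [sum_add_distrib, sum_add_distrib, sum_ite_eq']
        gcongr
        · rw [← sum_mul, ← mul_sum]; gcongr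
        · calc _ = c * (∑ r ∈ I, b r) * n * b s := by
                rw [mul_sum, sum_mul, sum_mul]; exact sum_congr rfl fun r _ => by ring
            _ ≤ _ := by gcongr
        · split_ifs with hs
          · gcongr; exact hτ s hs
          · simp
    _ = _ := by
        rw [ENNReal.tsum_add, ENNReal.tsum_add, ENNReal.tsum_mul_left, ENNReal.tsum_mul_left,
          ENNReal.tsum_mul_left, b_sum]; ring

lemma nw_P (ρ : ℤ → ℝ≥0∞) (y : ℤ → ℂ) : nw ρ (P y) ≤ nw ρ y :=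
  nw_mono _ fun j => by unfold P; split_ifs <;> simp

lemma W_F (I : Finset ℕ) : W (∑ r ∈ I, f r) ≤ 3 * ∑ r ∈ I, b r := by
  rw [mul_sum]
  exact (W_sum _ _).trans (sum_le_sum fun r _ => (W_f r).trans (by gcongr; exact e_le r))

lemma neg_part (ζ : Circle) {y : ℤ → ℂ} (hy : ∀ k, y k ≠ 0 → k ≤ 0) :
    N1z ζ y ≤ 4 * nw 1 y := by
  calc _ ≤ ∑' s, b s * (2 * nw 1 y) := by
        refine ENNReal.tsum_le_tsum fun s => ?_
        calc _ ≤ (q s : ℝ≥0∞) ^ 2 * (e s ^ 4 * 2 * nw 1 y) := by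
              gcongr
              · exact (Mu_le s).trans (q_sq s)
              · refine (far s _ y fun d k h1 h2 => ?_).trans (by gcongr; exact W_g _ _)
                have := In_g ζ s d h1
                have := hy k h2
                have := m_ge s
                have := q_pos s
                omega
          _ = ((q s : ℝ≥0∞) ^ 2 * e s ^ 4) * (2 * nw 1 y) := by ring
          _ ≤ _ := by gcongr; exact (qe4 s).trans (mul_le_of_le_one_right' (b_one s))
    _ = _ := by rw [ENNReal.tsum_mul_right, b_sum]; ring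

lemma N1z_add (ζ : Circle) (x y : ℤ → ℂ) : N1z ζ (x + y) ≤ N1z ζ x + N1z ζ y := by
  unfold N1z
  rw [← ENNReal.tsum_add]
  refine ENNReal.tsum_le_tsum fun s => ?_
  rw [← mul_add, act_add']; gcongr; exact nw_add _ _ _

lemma main_est (I : Finset ℕ) (τ β : ℝ≥0∞) (hτ : ∀ r ∈ I, t r ≤ τ) (hβ : ∑ r ∈ I, b r ≤ β)
    {x : ℤ → ℂ} (hx : Pos x) : N (P (act (∑ r ∈ I, f r) x)) ≤ 41 * (τ + β) * N x := by
  set y := act (∑ r ∈ I, f r) x with hy
  have h0 : nw 1 y ≤ 3 * β * nw 1 x :=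
    (crude _ (by simp) _ _).trans (by gcongr; exact (W_F I).trans (by gcongr))
  have h2 : N2 (P y) ≤ 6 * β * N2 x + 2 * 3 * β * nw 1 x + τ * N1 x := by
    refine le_trans ?_ ((sum_pair I τ β 3 (nw 1 x) hτ hβ _ _ _ fun r s => pair2 r s hx).trans ?_)
    · refine ENNReal.tsum_le_tsum fun s => ?_
      rw [← mul_sum]; gcongr
      refine (nw_P _ _).trans ?_
      rw [hy, act_sum]; exact nw_sum _ _ _
    · gcongr
      · rfl
      · exact le_iSup (fun ζ => N1z ζ x) 1
  have h1 : N1 (P y) ≤ 6 * β * N1 x + 2 * 6 * β * nw 1 x + τ * (41 * nw 1 x) +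
      4 * (3 * β * nw 1 x) := by
    refine iSup_le fun ζ => ?_
    have : P y = y + (P y - y) := by abel
    rw [this]
    refine (N1z_add _ _ _).trans (add_le_add ?_ ?_)
    · refine le_trans ?_
        ((sum_pair I τ β 6 (nw 1 x) hτ hβ _ _ _ fun r s => pair1 ζ r s x).trans ?_)
      · refine ENNReal.tsum_le_tsum fun s => ?_
        rw [← mul_sum]; gcongr
        rw [hy, act_sum]
        have := map_sum (actL (g ζ s)) (fun r => act (f r) x) I
        simp only [actL, LinearMap.coe_mk, AddHom.coe_mk] at this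
        rw [this]; exact nw_sum _ _ _
      · gcongr
        · exact le_iSup (fun ζ => N1z ζ x) ζ
        · exact H_sum ζ hx
    · refine (neg_part ζ fun k hk => ?_).trans ?_
      · by_contra h
        apply hk
        simp [P, show 0 ≤ k by omega]
      · gcongr
        refine le_trans (nw_mono _ fun j => ?_) h0
        simp only [Pi.sub_apply, P]; split_ifs <;> simp
  calc _ ≤ _ := add_le_add (add_le_add ((nw_P _ _).trans h0) h2) h1
    _ = (33 * β + 41 * τ) * nw 1 x + (6 * β) * N2 x + (τ + 6 * β) * N1 x := by ring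
    _ ≤ (41 * (τ + β)) * nw 1 x + (41 * (τ + β)) * N2 x + (41 * (τ + β)) * N1 x := by
        gcongr
        · rw [mul_add, add_comm]; gcongr; norm_num
        · norm_num
        · exact le_add_self
        · rw [mul_add]; gcongr
          · exact le_mul_of_one_le_left' (by norm_num)
          · norm_num
    _ = _ := by rw [N]; ring

end Pool.Agent.H.MP_3f635c_an
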