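import Pool.Agent.H.MP_3f635c_an.C
namespace Pool.Agent.H.MP_3f635c_an
open scoped ENNReal NNReal Topology
open Finset Filter

lemma N_add (x y : ℤ → ℂ) : N (x + y) ≤ N x + N y := by
  have h2 : N2 (x + y) ≤ N2 x + N2 y := by
    unfold N2
    rw [← ENNReal.tsum_add]
    refine ENNReal.tsum_le_tsum fun s => ?_
    rw [← mul_add]; gcongr; exact nw_add _ _ _
  have h1 : N1 (x + y) ≤ N1 x + N1 y := iSup_le fun ζ => (N1z_add ζ x y).trans
    (add_le_add (le_iSup (fun ζ => N1z ζ x) ζ) (le_iSup (fun ζ => N1z ζ y) ζ))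
  calc _ ≤ _ := add_le_add (add_le_add (nw_add 1 x y) h2) h1
    _ = _ := by rw [N, N]; ring

lemma N_smul (c : ℂ) (x : ℤ → ℂ) : N (c • x) = ‖c‖ₑ * N x := by
  simp only [N, N2, N1, N1z, act_smul', nw_smul, mul_add, mul_left_comm _ ‖c‖ₑ,
    ENNReal.tsum_mul_left, ENNReal.mul_iSup]

lemma N_zero : N 0 = 0 := by simpa using N_smul 0 0

lemma N_neg (x : ℤ → ℂ) : N (-x) = N x := by simpa using N_smul (-1) x

lemma N_sum {ι : Type} (s : Finset ι) (x : ι → ℤ → ℂ) : N (∑ i ∈ s, x i) ≤ ∑ i ∈ s, N (x i) := by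
  classical
  induction s using Finset.induction_on with
  | empty => simp [N_zero]
  | insert i s hi ih =>
    rw [sum_insert hi, sum_insert hi]
    exact (N_add _ _).trans (by gcongr)

lemma nw_le_N (x : ℤ → ℂ) : nw 1 x ≤ N x := le_self_add.trans le_self_add

lemma N_dom (x : ℤ → ℂ) (j : ℤ) : ‖x j‖ₑ ≤ N x := by
  refine le_trans ?_ (nw_le_N x)
  simpa [nw] using ENNReal.le_tsum (f := fun j => ‖x j‖ₑ) j

lemma ρ_ne (s : ℕ) (j : ℤ) : ρ s j ≠ ⊤ := ne_top_of_le_ne_top (by simp) (ρ_le s j)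

lemma lsc_mul {c : ℝ≥0∞} (hc : c ≠ ⊤) {φ : (ℤ → ℂ) → ℝ≥0∞} (h : LowerSemicontinuous φ) :
    LowerSemicontinuous fun x => c * φ x :=
  (ENNReal.continuous_const_mul hc).comp_lowerSemicontinuous h fun _ _ h => by
    dsimp only; gcongr

lemma N_lsc : LowerSemicontinuous N := by
  refine ((nw_lsc 1 (by simp)).add ?_).add ?_
  · exact lowerSemicontinuous_tsum fun s =>
      lsc_mul (ne_top_of_le_ne_top (by simp) (La_le s)) (nw_lsc _ (ρ_ne s))
  · refine lowerSemicontinuous_iSup fun ζ => lowerSemicontinuous_tsum fun s =>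
      lsc_mul (ne_top_of_le_ne_top (by simp) (Mu_le s)) ?_
    exact (nw_lsc _ (ρ_ne s)).comp (act_cont _)

lemma lsc_le {φ : (ℤ → ℂ) → ℝ≥0∞} (h : LowerSemicontinuous φ) {y : ℕ → ℤ → ℂ} {z : ℤ → ℂ}
    (hy : Tendsto y atTop (𝓝 z)) {c : ℝ≥0∞} (hc : ∀ᶠ n in atTop, φ (y n) ≤ c) : φ z ≤ c :=
  (h.isClosed_preimage c).mem_of_tendsto hy hc

lemma N_shift (d : ℤ) (y : ℤ → ℂ) : N (act (u d) y) ≤ (1 + d.natAbs) * N y := by
  have h : ∀ s y, nw (ρ s) (act (u d) y) ≤ (1 + d.natAbs) * nw (ρ s) y := fun s y => by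
    have := key (ρ s) (ρ s) (1 + d.natAbs) (u d) y fun d' k h _ => ρ_shift s _ _ _ (by
      have := In_u d d' h
      have h2 := q_pos s
      rw [show d' = d by omega, Int.natCast_natAbs]
      exact le_mul_of_one_le_right (abs_nonneg _) (by omega))
    rwa [W_u, mul_one] at this
  rw [N, N, mul_add, mul_add]
  refine add_le_add (add_le_add ?_ ?_) ?_
  · refine (crude 1 (by simp) _ _).trans ?_
    rw [W_u]; gcongr; exact le_self_add
  · rw [N2, N2, ← ENNReal.tsum_mul_left]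
    refine ENNReal.tsum_le_tsum fun s => ?_
    rw [mul_left_comm]; gcongr; exact h s y
  · refine iSup_le fun ζ => le_trans ?_ (mul_le_mul' le_rfl (le_iSup (fun ζ => N1z ζ y) ζ))
    rw [N1z, N1z, ← ENNReal.tsum_mul_left]
    refine ENNReal.tsum_le_tsum fun s => ?_
    rw [mul_left_comm, ← act_mul, mul_comm (g ζ s), act_mul]; gcongr; exact h s _

noncomputable def R (τ : Circle) : (ℤ → ℂ) →ₗ[ℂ] (ℤ → ℂ) where
  toFun x j := ((τ ^ j : Circle) : ℂ) * x j
  map_add' x y := by funext j; simp [mul_add]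
  map_smul' c x := by funext j; simp [mul_left_comm]

lemma R_apply (τ : Circle) (x : ℤ → ℂ) (j : ℤ) : R τ x j = ((τ ^ j : Circle) : ℂ) * x j := rfl

lemma nw_R (ρ : ℤ → ℝ≥0∞) (τ : Circle) (x : ℤ → ℂ) : nw ρ (R τ x) = nw ρ x := by
  simp only [nw, R_apply, enorm_mul, circ_enorm, one_mul]

lemma act_sub (a b : A) (x : ℤ → ℂ) : act (a - b) x = act a x - act b x := by
  rw [eq_sub_iff_add_eq, ← act_add, sub_add_cancel]

lemma act_R (ζ τ : Circle) (s : ℕ) (x : ℤ → ℂ) :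
    act (g (ζ * τ) s) (R τ x) = R τ (act (g ζ s) x) := by
  have hv : ∀ d x, act (v (ζ * τ) d) (R τ x) = R τ (act (v ζ d) x) := fun d x => by
    funext j
    simp only [v, act_smul, Pi.smul_apply, act_u, R_apply, smul_eq_mul, ← mul_assoc,
      ← Circle.coe_mul]
    congr 2
    rw [mul_zpow, mul_assoc, ← zpow_add, mul_comm]; congr 2; ring
  rw [g, g, act_mul, act_mul, act_sub, act_sub, hv, hv, ← map_sub, D, D, act_smul, act_smul,
    act_sum, act_sum, map_smul, map_sum]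
  simp only [hv]

lemma N_R (τ : Circle) (x : ℤ → ℂ) : N (R τ x) ≤ N x := by
  simp only [N, N2, nw_R]
  gcongr
  refine iSup_le fun ζ => le_trans (le_of_eq ?_) (le_iSup (fun ζ => N1z ζ x) (ζ / τ))
  have := fun s => act_R (ζ / τ) τ s x
  rw [div_mul_cancel] at this
  simp only [N1z, this, nw_R]

lemma farc (s : ℕ) {a : A} {l h : ℤ} (ha : In a l h) (hh : h ≤ 7 * m s ∨ 9 * m s ≤ l) :
    nw (ρ s) a.coeff ≤ e s ^ 4 * W a :=
  nw_le _ _ _ _ fun k hk => by
    have := ha k hk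
    simpa using ρ_far s k (by omega)

lemma N_u (d : ℤ) : N (u d).coeff ≤ (1 + d.natAbs) * 7 := by
  have h0 : N (u 0).coeff ≤ 7 := by
    have h2 : N2 (u 0).coeff ≤ 2 := by
      rw [← b_sum]
      refine ENNReal.tsum_le_tsum fun s => ?_
      have := m_ge s
      have := q_pos s
      calc _ ≤ (q s : ℝ≥0∞) ^ 2 * (e s ^ 4 * W (u 0)) :=
            mul_le_mul' (La_le s) (farc s (In_u 0) (by omega))
        _ ≤ _ := by
            rw [W_u, mul_one]; exact (qe4 s).trans (mul_le_of_le_one_right' (b_one s))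
    have h1 : N1 (u 0).coeff ≤ 4 := iSup_le fun ζ =>
      (neg_part ζ fun k hk => (In_u 0 k hk).2).trans (by rw [← W, W_u, mul_one])
    calc _ ≤ (1 : ℝ≥0∞) + 2 + 4 := add_le_add (add_le_add (W_u 0).le h2) h1
      _ = 7 := by norm_num
  have := N_shift d (u 0).coeff
  rw [act_coeff, ← u_add, add_zero] at this
  exact this.trans (by gcongr)

lemma u_coeff (d j : ℤ) : (u d).coeff j = if d = j then 1 else 0 := by
  rw [u, AddMonoidAlgebra.coeff_single, Finsupp.single_apply]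

lemma N_back (n : ℕ) {x : ℤ → ℂ} (hx : Pos x) :
    N (P (act (u (-n)) x)) ≤ (1 + n) * (1 + n * ((1 + n) * 7)) * N x := by
  have h : P (act (u (-n)) x) =
      act (u (-n)) (x + -∑ k ∈ range n, x k • ((u k).coeff : ℤ → ℂ)) := by
    funext j
    simp only [P, act_u, Pi.add_apply, Pi.neg_apply, Finset.sum_apply, Pi.smul_apply, u_coeff,
      smul_eq_mul, sub_neg_eq_add]
    split_ifs with hj
    · rw [sum_eq_zero, neg_zero, add_zero]
      intro k hk
      have := mem_range.1 hk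
      rw [if_neg (by omega), mul_zero]
    · by_cases h : j + n < 0
      · rw [hx _ h, sum_eq_zero, neg_zero, add_zero]
        intro k hk
        rw [if_neg (by omega), mul_zero]
      · obtain ⟨k, hk⟩ : ∃ k : ℕ, j + n = k := ⟨(j + n).toNat, by omega⟩
        rw [hk, sum_eq_single k]
        · simp
        · intro i _ hi; rw [if_neg (by omega), mul_zero]
        · intro h; exact absurd (mem_range.2 (by omega)) h
  rw [h]
  refine (N_shift _ _).trans ?_
  rw [Int.natAbs_neg, Int.natAbs_natCast, mul_assoc]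
  gcongr
  refine (N_add _ _).trans ?_
  rw [N_neg, add_mul, one_mul]
  gcongr
  refine (N_sum _ _).trans ((sum_le_card_nsmul _ _ ((1 + n) * 7 * N x) fun k hk => ?_).trans ?_)
  · have := mem_range.1 hk
    rw [N_smul, mul_comm]
    gcongr
    · refine (N_u k).trans ?_
      rw [Int.natAbs_natCast]; gcongr
    · exact N_dom _ _
  · simp [mul_assoc]

noncomputable def F (r : ℕ) : A := ∑ i ∈ range r, f i

lemma e_pair4 {s r : ℕ} (h : s < r) : e r ≤ e s ^ 4 * b r := by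
  have h0 : q s ^ 4 * 2 ^ r ≤ q r := by
    obtain ⟨r, rfl⟩ : ∃ r', r = r' + 1 := ⟨r - 1, by omega⟩
    have h1 : q s ≤ q r := q_mono (by omega)
    have h2 := q_two r
    have h4 := q_ge r
    calc _ ≤ q r ^ 4 * q r := by gcongr
      _ = q r ^ 5 := by ring
      _ ≤ q r ^ 8 := Nat.pow_le_pow_right (by omega) (by norm_num)
  rw [e, e, b, ← ENNReal.inv_pow, ← ENNReal.inv_pow, ← ENNReal.mul_inv (by simp) (by simp)]
  refine ENNReal.inv_le_inv.2 ?_
  exact_mod_cast h0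

lemma b_fin (I : Finset ℕ) : ∑ r ∈ I, b r ≤ 2 := by
  rw [← b_sum]; exact ENNReal.sum_le_tsum _

lemma W_F' (I : Finset ℕ) : W (∑ r ∈ I, f r) ≤ 6 :=
  (W_F I).trans ((mul_le_mul' le_rfl (b_fin I)).trans (by norm_num))

noncomputable def mn (s : ℕ) : A :=
  (-((q s : ℂ)⁻¹ * (q s : ℂ)⁻¹)) • (u (8 * m s) * (D 1 s * D 1 s))

lemma mn_ge (s : ℕ) : e s ^ 2 ≤ 3 * nw (ρ s) (mn s).coeff := by
  have h1 : act (D 1 s) 1 = 1 := by
    have := q_ge s
    funext j
    have : (q s : ℂ) ≠ 0 := by simp; omega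
    simp [D, act_smul, act_sum, v_one, act_u, this]
  have h2 : ∀ a : A, ‖act a 1 0‖ₑ ≤ W a := fun a => by
    simp only [act, Finsupp.sum, Pi.one_apply, mul_one, W, nw, one_mul]
    exact (enorm_sum_le _ _).trans (ENNReal.sum_le_tsum _)
  have h3 := h2 (mn s)
  rw [mn, act_smul, act_mul, act_mul, h1, h1, Pi.smul_apply, act_u, Pi.one_apply, smul_eq_mul,
    mul_one, enorm_neg, enorm_mul, qinv, ← sq] at h3
  refine h3.trans (nw_le _ _ _ _ fun k hk => ?_)
  have := (((In_u (8 * m s)).mul (In_DD 1 s)).smul _) k hk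
  exact ρ_near s k (by omega) (by omega)

lemma sq_le {s r : ℕ} (h : s < r) : nw (ρ s) (F r * F r - mn s).coeff ≤ 200 * e s ^ 4 := by
  have hm := m_ge s
  have hq := q_pos s
  set H := ∑ i ∈ Ico (s + 1) r, f i with hH
  have hF : F r = F s + f s + H := by
    rw [F, F, hH, ← sum_range_succ, sum_range_add_sum_Ico _ h]
  have hL : In (F s) (-(q s)) (q s) := In.sum _ _ fun i hi => by
    have := m_big (mem_range.1 hi)
    have := m_ge i
    have := q_pos i
    exact (In_f i).mono (by omega) (by omega)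
  have hW : W (F s) ≤ 6 := W_F' _
  have hWH : W H ≤ e s ^ 4 * 6 := by
    calc _ ≤ ∑ i ∈ Ico (s + 1) r, 3 * (e s ^ 4 * b i) := (W_sum _ _).trans (sum_le_sum fun i hi =>
          (W_f i).trans (mul_le_mul' le_rfl (e_pair4 (mem_Ico.1 hi).1)))
      _ ≤ 3 * (e s ^ 4 * 2) := by rw [← mul_sum, ← mul_sum]; gcongr; exact b_fin _
      _ = _ := by ring
  set c := (q s : ℂ)⁻¹ with hc
  set DD := D 1 s * D 1 s with hDD
  have h16 : a' s * g 1 s = u (16 * m s) * DD - u (8 * m s) * DD := by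
    have h1 : u (16 * m s) = u (12 * m s) * u (4 * m s) := by rw [← u_add]; congr 1; ring
    have h2 : u (8 * m s) = u (12 * m s) * u (-(4 * m s)) := by rw [← u_add]; congr 1; ring
    rw [a', g, v_one, v_one, h1, h2, hDD]; ring
  have he := h_eq 1 s
  simp only [cc, one_zpow, sub_self, zero_smul, zero_add, Circle.coe_one, one_smul] at he
  have hE : F r * F r - mn s = F s * F s + (2 * c) • (F s * g 1 s) + (2 * c) • (F s * a' s) +
      (2 * (c * c)) • (u (16 * m s) * DD) + (c * c) • (lo 1 s * DD) + (c * c) • (a' s * a' s) +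
      H * (F (s + 1) + F r) := by
    have : F (s + 1) = F s + f s := sum_range_succ _ _
    rw [this, hF, mn, f]
    simp only [Algebra.smul_def, map_mul, map_neg, map_ofNat, ← hc, ← hDD] at he h16 ⊢
    linear_combination (algebraMap ℂ A c) ^ 2 * he + (algebraMap ℂ A c) ^ 2 * h16
  have hc1 : ‖c‖ₑ ≤ 1 := by rw [hc, qinv]; exact e_one s
  have hc2 : ‖c * c‖ₑ ≤ 1 := by rw [enorm_mul]; exact mul_le_one' hc1 hc1
  have hc3 : ∀ z : ℂ, ‖z‖ₑ ≤ 1 → ‖2 * z‖ₑ ≤ 2 := fun z hz => by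
    rw [enorm_mul]
    refine (mul_le_of_le_one_right' hz).trans (le_of_eq ?_)
    rw [enorm_eq_nnnorm]; simp
  have hw : ∀ (z : ℂ) (x y : A) (k1 k2 k3 : ℝ≥0∞), ‖z‖ₑ ≤ k1 → W x ≤ k2 → W y ≤ k3 →
      e s ^ 4 * W (z • (x * y)) ≤ e s ^ 4 * (k1 * (k2 * k3)) := fun z x y k1 k2 k3 h1 h2 h3 => by
    rw [W_smul]; gcongr; exact (W_mul _ _).trans (mul_le_mul' h2 h3)
  have p1 := (farc s (hL.mul hL) (by omega)).trans
    (mul_le_mul' le_rfl ((W_mul _ _).trans (mul_le_mul' hW hW)))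
  have p2 := (farc s ((hL.mul (In_g 1 s)).smul (2 * c)) (by omega)).trans
    (hw _ _ _ _ _ _ (hc3 _ hc1) hW (W_g 1 s))
  have p3 := (farc s ((hL.mul (In_a' s)).smul (2 * c)) (by omega)).trans
    (hw _ _ _ _ _ _ (hc3 _ hc1) hW (W_a' s))
  have p4 := (farc s (((In_u (16 * m s)).mul (In_DD 1 s)).smul (2 * (c * c))) (by omega)).trans
    (hw _ _ _ _ _ _ (hc3 _ hc2) (W_u _).le (W_DD' 1 s))
  have p5 := (farc s (((In_lo 1 s).mul (In_DD 1 s)).smul (c * c)) (by omega)).trans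
    (hw _ _ _ _ _ _ hc2 (W_lo 1 s) (W_DD' 1 s))
  have p6 := (farc s (((In_a' s).mul (In_a' s)).smul (c * c)) (by omega)).trans
    (hw _ _ _ _ _ _ hc2 (W_a' s) (W_a' s))
  have p7 : nw (ρ s) (H * (F (s + 1) + F r)).coeff ≤ e s ^ 4 * 6 * (6 + 6) := by
    rw [← act_coeff]
    exact (crude _ (ρ_le s) _ _).trans
      (mul_le_mul' hWH ((W_add _ _).trans (add_le_add (W_F' _) (W_F' _))))
  have ha : ∀ x y : A, nw (ρ s) (x + y).coeff ≤ nw (ρ s) x.coeff + nw (ρ s) y.coeff :=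
    fun x y => nw_add _ _ _
  rw [hE]
  refine le_trans ((ha _ _).trans (add_le_add ((ha _ _).trans (add_le_add ((ha _ _).trans
    (add_le_add ((ha _ _).trans (add_le_add ((ha _ _).trans (add_le_add ((ha _ _).trans
    (add_le_add p1 p2)) p3)) p4)) p5)) p6)) p7)) ?_
  calc _ = 150 * e s ^ 4 := by ring
    _ ≤ _ := by gcongr; norm_num

lemma blow {y : ℤ → ℂ} (hy : Tendsto (fun r => P (F r * F r).coeff) atTop (𝓝 y)) : N y = ⊤ := by
  have h1 : ∀ s, nw (ρ s) (y - (mn s).coeff) ≤ 200 * e s ^ 4 := fun s => by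
    refine lsc_le (nw_lsc _ (ρ_ne s)) (hy.sub_const _) ?_
    filter_upwards [eventually_gt_atTop s] with r hr
    refine le_trans (nw_mono _ fun j => ?_) (sq_le hr)
    simp only [Pi.sub_apply, P, AddMonoidAlgebra.coeff_sub, Finsupp.coe_sub]
    split_ifs with hj
    · rfl
    · have : (mn s).coeff j = 0 := by
        by_contra h
        have := (((In_u (8 * m s)).mul (In_DD 1 s)).smul _) j h
        have := m_ge s
        have := q_pos s
        omega
      simp [this]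
  have h2 : ∀ s, t s ^ 2 ≤ 6 * (La s * nw (ρ s) y) := fun s => by
    have h3 : e s ^ 2 ≤ 3 * nw (ρ s) y + e s ^ 2 / 2 := by
      refine (mn_ge s).trans ?_
      have : ((mn s).coeff : ℤ → ℂ) = y - (y - (mn s).coeff) := by abel
      rw [this]
      refine (mul_le_mul' le_rfl ((nw_sub _ _ _).trans (add_le_add le_rfl (h1 s)))).trans ?_
      rw [mul_add]
      gcongr
      rw [ENNReal.le_div_iff_mul_le (by simp) (by simp)]
      have h4 : (1200 : ℝ≥0∞) ≤ (q s : ℝ≥0∞) ^ 2 := by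
        have := q_ge' s
        exact_mod_cast (by nlinarith : 1200 ≤ q s ^ 2)
      calc _ = 1200 * e s ^ 4 := by ring
        _ ≤ (q s : ℝ≥0∞) ^ 2 * e s ^ 4 := by gcongr
        _ = (q s * e s) ^ 2 * e s ^ 2 := by ring
        _ = _ := by rw [qe, one_pow, one_mul]
    have h5 : e s ^ 2 ≠ ⊤ := ENNReal.pow_ne_top (ne_top_of_le_ne_top (by simp) (e_one s))
    have h4 : e s ^ 2 / 2 ≤ 3 * nw (ρ s) y := by
      nth_rewrite 1 [← ENNReal.add_halves (e s ^ 2)] at h3
      exact ENNReal.le_of_add_le_add_right (ENNReal.div_ne_top h5 (by simp)) h3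
    rw [ENNReal.div_le_iff (by simp) (by simp)] at h4
    calc _ = La s * e s ^ 2 := by
          rw [La, mul_right_comm, ← mul_pow, qe, one_pow, one_mul]
      _ ≤ La s * (3 * nw (ρ s) y * 2) := by gcongr
      _ = _ := by ring
  have h3 : ∑' s, t s ^ 2 = ⊤ := by
    by_contra h
    simp only [t, ← ENNReal.coe_pow, inv_pow, NNReal.sq_sqrt] at h
    have := NNReal.summable_coe.2 (ENNReal.tsum_coe_ne_top_iff_summable.1 h)
    refine Real.not_summable_natCast_inv ((summable_nat_add_iff 1).1 ?_)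
    simpa using this
  have h4 := ENNReal.tsum_le_tsum h2
  rw [h3, ENNReal.tsum_mul_left, top_le_iff] at h4
  have : N2 y = ⊤ := by
    by_contra h
    exact ENNReal.mul_ne_top (by simp) h h4
  simp [N, this]

end Pool.Agent.H.MP_3f635c_an
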