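import Pool.Agent.H.MP_3f635c_an.D
namespace Pool.Agent.H.MP_3f635c_an
open scoped ENNReal NNReal Topology
open Finset Filter

def Xs : Submodule ℂ (ℤ → ℂ) where
  carrier := {x | Pos x ∧ N x ≠ ⊤}
  add_mem' := fun {x y} hx hy => ⟨fun j hj => by simp [hx.1 j hj, hy.1 j hj],
    ne_top_of_le_ne_top (ENNReal.add_ne_top.2 ⟨hx.2, hy.2⟩) (N_add x y)⟩
  zero_mem' := ⟨fun _ _ => rfl, by simp [N_zero]⟩
  smul_mem' := fun c x hx => ⟨fun j hj => by simp [hx.1 j hj], by
    rw [N_smul]; exact ENNReal.mul_ne_top (by simp) hx.2⟩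

def X : Type := Xs

noncomputable instance : AddCommGroup X := inferInstanceAs (AddCommGroup Xs)
noncomputable instance : Module ℂ X := inferInstanceAs (Module ℂ Xs)

noncomputable def val : X →ₗ[ℂ] (ℤ → ℂ) := Xs.subtype

lemma val_mem (x : X) : Pos (val x) ∧ N (val x) ≠ ⊤ := x.2

lemma val_inj : Function.Injective val := Subtype.val_injective

def mk (x : ℤ → ℂ) (h : Pos x ∧ N x ≠ ⊤) : X := (⟨x, h⟩ : Xs)

lemma val_mk (x : ℤ → ℂ) (h : Pos x ∧ N x ≠ ⊤) : val (mk x h) = x := rfl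

noncomputable instance : NormedAddCommGroup X := AddGroupNorm.toNormedAddCommGroup
  { toFun := fun x => (N (val x)).toReal
    map_zero' := by simp [N_zero]
    add_le' := fun x y => by
      rw [map_add, ← ENNReal.toReal_add (val_mem x).2 (val_mem y).2]
      exact ENNReal.toReal_mono (ENNReal.add_ne_top.2 ⟨(val_mem x).2, (val_mem y).2⟩) (N_add _ _)
    neg' := fun x => by rw [map_neg, N_neg]
    eq_zero_of_map_eq_zero' := fun x hx => by
      have h : N (val x) = 0 := by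
        simpa [ENNReal.toReal_eq_zero_iff, (val_mem x).2] using hx
      apply val_inj
      funext j
      have := N_dom (val x) j
      simpa [h] using this }

lemma norm_def (x : X) : ‖x‖ = (N (val x)).toReal := rfl

lemma enorm_def (x : X) : ‖x‖ₑ = N (val x) := by
  rw [← ofReal_norm, norm_def, ENNReal.ofReal_toReal (val_mem x).2]

noncomputable instance : NormedSpace ℂ X where
  norm_smul_le c x := by
    rw [norm_def, norm_def, map_smul, N_smul, ENNReal.toReal_mul, toReal_enorm]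

lemma val_le (x : X) (j : ℤ) : ‖val x j‖ ≤ ‖x‖ :=
  enorm_le_iff_norm_le.1 (by rw [enorm_def]; exact N_dom _ _)

lemma val_cont : Continuous val := continuous_pi fun j =>
  AddMonoidHomClass.continuous_of_bound ((LinearMap.proj j).comp val) 1 fun x => by
    simpa using val_le x j

instance : CompleteSpace X := by
  refine Metric.complete_of_cauchySeq_tendsto fun w hw => ?_
  have h1 : ∀ j, ∃ z, Tendsto (fun n => val (w n) j) atTop (𝓝 z) := fun j => by
    refine cauchySeq_tendsto_of_complete ?_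
    have : LipschitzWith 1 fun x : X => val x j := LipschitzWith.of_dist_le_mul fun x y => by
      simpa [dist_eq_norm] using val_le (x - y) j
    exact this.uniformContinuous.comp_cauchySeq hw
  choose z hz using h1
  have hz' : Tendsto (fun n => val (w n)) atTop (𝓝 z) := tendsto_pi_nhds.2 hz
  have h2 : ∀ ε > 0, ∃ K, ∀ n ≥ K, N (val (w n) - z) ≤ ENNReal.ofReal ε := fun ε hε => by
    obtain ⟨K, hK⟩ := Metric.cauchySeq_iff.1 hw ε hε
    refine ⟨K, fun n hn => lsc_le N_lsc (hz'.const_sub _) ?_⟩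
    filter_upwards [eventually_ge_atTop K] with k hk
    rw [← map_sub, ← enorm_def, ← ofReal_norm, ← dist_eq_norm]
    exact ENNReal.ofReal_le_ofReal (hK n hn k hk).le
  have h3 : Pos z ∧ N z ≠ ⊤ := by
    refine ⟨fun j hj => tendsto_nhds_unique (hz j) ?_, ?_⟩
    · simp [(val_mem _).1 j hj]
    · obtain ⟨K, hK⟩ := h2 1 one_pos
      have : z = val (w K) + -(val (w K) - z) := by abel
      rw [this]
      refine ne_top_of_le_ne_top (ENNReal.add_ne_top.2 ⟨(val_mem _).2, ?_⟩) (N_add _ _)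
      rw [N_neg]; exact ne_top_of_le_ne_top (by simp) (hK K le_rfl)
  refine ⟨mk z h3, Metric.tendsto_atTop.2 fun ε hε => ?_⟩
  obtain ⟨K, hK⟩ := h2 (ε / 2) (by positivity)
  refine ⟨K, fun n hn => ?_⟩
  rw [dist_eq_norm, norm_def, map_sub, val_mk]
  exact (ENNReal.toReal_le_of_le_ofReal (by positivity) (hK n hn)).trans_lt (by linarith)

def P0 : Submodule ℂ X where
  carrier := {x | ∃ a : A, val x = a.coeff}
  add_mem' := by
    rintro x y ⟨a, ha⟩ ⟨b, hb⟩
    exact ⟨a + b, by rw [map_add, ha, hb]; rfl⟩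
  zero_mem' := ⟨0, by simp⟩
  smul_mem' := by
    rintro c x ⟨a, ha⟩
    exact ⟨c • a, by rw [map_smul, ha]; rfl⟩

abbrev E : Type := P0.topologicalClosure

noncomputable def co (x : E) : ℤ → ℂ := val x.1

structure Ok (T : (ℤ → ℂ) →ₗ[ℂ] (ℤ → ℂ)) (c : ℝ≥0) : Prop where
  pos : ∀ x, Pos x → Pos (T x)
  bd : ∀ x, Pos x → N (T x) ≤ c * N x
  fin : ∀ a : A, ∃ a' : A, T a.coeff = a'.coeff

noncomputable def opL {T : (ℤ → ℂ) →ₗ[ℂ] (ℤ → ℂ)} {c : ℝ≥0} (h : Ok T c) : X →ₗ[ℂ] X where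
  toFun x := mk (T (val x)) ⟨h.pos _ (val_mem x).1, ne_top_of_le_ne_top
    (ENNReal.mul_ne_top (by simp) (val_mem x).2) (h.bd _ (val_mem x).1)⟩
  map_add' x y := val_inj (by simp [val_mk])
  map_smul' c x := val_inj (by simp [val_mk])

lemma le_of_N {x y : X} {c : ℝ≥0} (h : N (val y) ≤ c * N (val x)) : ‖y‖ ≤ c * ‖x‖ := by
  rw [← enorm_def, ← enorm_def, enorm_eq_nnnorm, enorm_eq_nnnorm] at h
  exact_mod_cast h

noncomputable def opX {T : (ℤ → ℂ) →ₗ[ℂ] (ℤ → ℂ)} {c : ℝ≥0} (h : Ok T c) : X →L[ℂ] X :=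
  (opL h).mkContinuous c fun x => le_of_N (h.bd _ (val_mem x).1)

noncomputable def op {T : (ℤ → ℂ) →ₗ[ℂ] (ℤ → ℂ)} {c : ℝ≥0} (h : Ok T c) : E →L[ℂ] E :=
  (opX h).restrict fun x hx => map_mem_closure (opX h).continuous hx (by
    rintro y ⟨a, ha⟩
    obtain ⟨a', ha'⟩ := h.fin a
    exact ⟨a', by rw [← ha', ← ha]; rfl⟩)

lemma co_op {T : (ℤ → ℂ) →ₗ[ℂ] (ℤ → ℂ)} {c : ℝ≥0} (h : Ok T c) (x : E) :
    co (op h x) = T (co x) := rfl

lemma co_pos (x : E) : Pos (co x) := (val_mem x.1).1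

lemma op_le {S : E →L[ℂ] E} {c : ℝ≥0} (h : ∀ x, N (co (S x)) ≤ c * N (co x)) : ‖S‖ ≤ c :=
  S.opNorm_le_bound c.2 fun x => le_of_N (h x)

lemma N_fin (a : A) : N a.coeff ≠ ⊤ := by
  induction a using AddMonoidAlgebra.induction_linear with
  | zero => simp [N_zero]
  | add a b ha hb => exact ne_top_of_le_ne_top (ENNReal.add_ne_top.2 ⟨ha, hb⟩) (N_add _ _)
  | single d r =>
    have : AddMonoidAlgebra.single d r = r • u d := by
      rw [u, AddMonoidAlgebra.smul_single, smul_eq_mul, mul_one]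
    rw [this]
    have := N_smul r (u d).coeff
    refine ne_of_eq_of_ne this (ENNReal.mul_ne_top (by simp) (ne_top_of_le_ne_top ?_ (N_u d)))
    exact ENNReal.mul_ne_top (by simp) (by simp)

noncomputable def el (a : A) (h : Pos a.coeff) : E :=
  ⟨mk a.coeff ⟨h, N_fin a⟩, Submodule.le_topologicalClosure _ ⟨a, rfl⟩⟩

lemma co_el (a : A) (h : Pos a.coeff) : co (el a h) = a.coeff := rfl

def PL : (ℤ → ℂ) →ₗ[ℂ] (ℤ → ℂ) where
  toFun := P
  map_add' x y := by funext j; simp only [P, Pi.add_apply]; split_ifs <;> simp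
  map_smul' c x := by funext j; simp only [P, Pi.smul_apply]; split_ifs <;> simp

lemma P_pos (x : ℤ → ℂ) : Pos (P x) := fun j hj => by simp [P, hj]

lemma fin_of {a : A} {y : ℤ → ℂ} (h : ∀ j, y j ≠ 0 → a.coeff j ≠ 0) : ∃ a' : A, y = a'.coeff :=
  ⟨.ofCoeff (Finsupp.onFinset a.coeff.support y fun j hj => Finsupp.mem_support_iff.2 (h j hj)),
    rfl⟩

lemma ok_P (a : A) {c : ℝ≥0} (h : ∀ x, Pos x → N (P (act a x)) ≤ c * N x) :
    Ok (PL ∘ₗ actL a) c :=
  ⟨fun _ _ => P_pos _, h, fun a' => fin_of (a := a * a') fun j hj => by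
    rw [← act_coeff]; intro h0; apply hj
    change P (act a a'.coeff) j = 0
    simp [P, h0]⟩

lemma ok_R (τ : Circle) : Ok (R τ) 1 :=
  ⟨fun x hx j hj => by simp [R_apply, hx j hj], fun x _ => by simpa using N_R τ x,
    fun a => fin_of (a := a) fun j hj => right_ne_zero_of_mul hj⟩

lemma P_of {x : ℤ → ℂ} (h : Pos x) : P x = x := by
  funext j; unfold P; split_ifs with hj
  · rfl
  · exact (h j (by omega)).symm

lemma pos_u (n : ℕ) {x : ℤ → ℂ} (h : Pos x) : Pos (act (u n) x) := fun j hj => by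
  rw [act_u]; exact h _ (by omega)

noncomputable def S : E →L[ℂ] E := op (ok_P (u 1) (c := 2) fun x hx => by
  rw [P_of (x := act (u 1) x) (pos_u 1 hx)]
  refine (N_shift 1 x).trans (le_of_eq ?_)
  norm_num)

noncomputable def B : E →L[ℂ] E := op (ok_P (u (-1)) (c := 30) fun x hx => by
  refine (N_back 1 hx).trans (le_of_eq ?_)
  norm_num)

lemma co_S (x : E) : co (S x) = act (u 1) (co x) := P_of (pos_u 1 (co_pos x))

lemma co_B (x : E) : co (B x) = P (act (u (-1)) (co x)) := rfl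

lemma co_Sn (n : ℕ) (x : E) : co ((S ^ n) x) = act (u n) (co x) := by
  induction n with
  | zero => simp [u_zero, act_one]
  | succ n ih =>
    rw [pow_succ', mul_apply_eq_comp, co_S, ih, ← act_mul, ← u_add]
    congr 2; push_cast; ring

lemma co_Bn (n : ℕ) (x : E) : co ((B ^ n) x) = P (act (u (-n)) (co x)) := by
  induction n with
  | zero => simp [u_zero, act_one, P_of (co_pos x)]
  | succ n ih =>
    rw [pow_succ', mul_apply_eq_comp, co_B, ih]
    funext j
    simp only [P, act_u]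
    split_ifs with h1 h2
    · congr 1; push_cast; ring
    · omega
    · rfl

lemma rad {𝔸 : Type} [NormedRing 𝔸] [NormedAlgebra ℂ 𝔸] [CompleteSpace 𝔸] (a : 𝔸) (K : ℝ)
    (h1 : ∀ n : ℕ, ‖a ^ n‖ ≤ K * (n + 1) ^ 3) (h2 : ∀ n : ℕ, 1 ≤ K * (n + 1) ^ 3 * ‖a ^ n‖) :
    spectralRadius ℂ a = 1 := by
  have hK : 0 < K := by
    by_contra h
    have := h2 0
    simp only [Nat.cast_zero, zero_add, one_pow, mul_one] at this
    nlinarith [norm_nonneg (a ^ 0)]
  have hp : ∀ n : ℕ, 0 < ‖a ^ n‖ := fun n => by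
    by_contra h
    have := h2 n
    rw [le_antisymm (not_lt.1 h) (norm_nonneg _)] at this
    linarith
  have h3 : Tendsto (fun n : ℕ => Real.log (K * (n + 1) ^ 3) / n) atTop (𝓝 0) := by
    have e1 : Tendsto (fun n : ℕ => Real.log K / n) atTop (𝓝 0) :=
      tendsto_const_div_atTop_nhds_zero_nat _
    have e2 : Tendsto (fun n : ℕ => Real.log (n + 1) / n) atTop (𝓝 0) := by
      have := (Real.tendsto_pow_log_div_mul_add_atTop 1 (-1) 1 one_ne_zero).comp
        (tendsto_atTop_add_const_right _ 1 tendsto_natCast_atTop_atTop)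
      simpa [Function.comp_def] using this
    have := e1.add (e2.const_mul 3)
    simp only [mul_zero, add_zero] at this
    refine this.congr fun n => ?_
    rw [Real.log_mul hK.ne' (by positivity), Real.log_pow]; push_cast; ring
  have h4 : Tendsto (fun n : ℕ => Real.log ‖a ^ n‖ * (1 / n)) atTop (𝓝 0) := by
    refine squeeze_zero_norm (fun n => ?_) h3
    rw [Real.norm_eq_abs, abs_mul, abs_of_nonneg (by positivity : (0 : ℝ) ≤ 1 / n), mul_one_div]
    gcongr
    rw [abs_le]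
    refine ⟨?_, Real.log_le_log (hp n) (h1 n)⟩
    have := Real.log_nonneg (h2 n)
    rw [Real.log_mul (by positivity) (hp n).ne'] at this
    linarith
  have h5 := ENNReal.tendsto_ofReal ((Real.continuous_exp.tendsto 0).comp h4)
  have h6 := spectrum.pow_norm_pow_one_div_tendsto_nhds_spectralRadius a
  have := tendsto_nhds_unique h6 (h5.congr fun n => by
    simp only [Function.comp_apply]; rw [Real.rpow_def_of_pos (hp n)])
  simpa using this

lemma pos_un (n : ℕ) : Pos (u n).coeff := fun j hj => by rw [u_coeff, if_neg (by omega)]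

lemma el_le (n : ℕ) : ‖el (u n) (pos_un n)‖ ≤ 8 * (n + 1) ^ 3 := by
  have := N_u n
  change ‖(el (u n) (pos_un n)).1‖ ≤ _
  rw [Int.natAbs_natCast] at this
  have h : ‖(el (u n) (pos_un n)).1‖ₑ ≤ (1 + n) * 7 := by rw [enorm_def]; exact this
  rw [enorm_eq_nnnorm] at h
  have h : ‖(el (u n) (pos_un n)).1‖₊ ≤ (1 + n) * 7 := by exact_mod_cast h
  have h : ‖(el (u n) (pos_un n)).1‖ ≤ (1 + n) * 7 := by exact_mod_cast h
  have : (0 : ℝ) ≤ n := by positivity
  nlinarith [pow_nonneg this 2, pow_nonneg this 3]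

lemma co_le (x : E) (j : ℤ) : ‖co x j‖ ≤ ‖x‖ := val_le x.1 j

lemma rad_S : spectralRadius ℂ S = 1 := by
  refine rad S 8 (fun n => ?_) fun n => ?_
  · refine (op_le (c := 1 + n) fun x => ?_).trans ?_
    · rw [co_Sn]; simpa using N_shift n (co x)
    · have : (0 : ℝ) ≤ n := by positivity
      push_cast; nlinarith [pow_nonneg this 2, pow_nonneg this 3]
  · have h1 := co_le ((S ^ n) (el (u (0 : ℕ)) (pos_un 0))) n
    rw [co_Sn, co_el, act_u, u_coeff] at h1
    have h2 := (S ^ n).le_opNorm (el (u (0 : ℕ)) (pos_un 0))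
    have h3 := el_le 0
    have h4 : (1 : ℝ) ≤ (n + 1) ^ 3 := one_le_pow₀ (by simp)
    simp only [Nat.cast_zero, sub_self, if_true, norm_one, zero_add, one_pow] at h1 h2 h3
    nlinarith [norm_nonneg (S ^ n), mul_le_mul_of_nonneg_left h3 (norm_nonneg (S ^ n))]

lemma rad_B : spectralRadius ℂ B = 1 := by
  refine rad B 8 (fun n => ?_) fun n => ?_
  · refine (op_le (c := (1 + n) * (1 + n * ((1 + n) * 7))) fun x => ?_).trans ?_
    · rw [co_Bn]; simpa using N_back n (co_pos x)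
    · have : (0 : ℝ) ≤ n := by positivity
      push_cast; nlinarith [pow_nonneg this 2, pow_nonneg this 3]
  · have h1 := co_le ((B ^ n) (el (u n) (pos_un n))) 0
    rw [co_Bn, co_el, P, if_pos le_rfl, act_u, u_coeff, if_pos (by simp), norm_one] at h1
    have h2 := (B ^ n).le_opNorm (el (u n) (pos_un n))
    have h3 := el_le n
    nlinarith [norm_nonneg (B ^ n), mul_le_mul_of_nonneg_left h3 (norm_nonneg (B ^ n))]

end Pool.Agent.H.MP_3f635c_an
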