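import Pool.Agent.H.MP_3f635c_an.E
namespace Pool.Agent.H.MP_3f635c_an
open scoped ENNReal NNReal Topology
open Finset Filter Metric

lemma co_summ (x : E) : Summable fun n : ℕ => ‖co x n‖ := by
  have h : nw 1 (co x) ≠ ⊤ := ne_top_of_le_ne_top (val_mem x.1).2 (nw_le_N _)
  simp only [nw, Pi.one_apply, one_mul, enorm_eq_nnnorm] at h
  have := NNReal.summable_coe.2 (ENNReal.tsum_coe_ne_top_iff_summable.1 h)
  exact this.comp_injective Nat.cast_injective

lemma term_le (c : ℂ) (n : ℕ) {z : ℂ} (hz : z ∈ ball (0 : ℂ) 1) : ‖c * z ^ n‖ ≤ ‖c‖ := by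
  rw [norm_mul, norm_pow]
  exact mul_le_of_le_one_right (norm_nonneg _)
    (pow_le_one₀ (norm_nonneg _) (mem_ball_zero_iff.1 hz).le)

lemma summ (x : E) {z : ℂ} (hz : z ∈ ball (0 : ℂ) 1) : Summable fun n : ℕ => co x n * z ^ n :=
  .of_norm_bounded (co_summ x) fun n => term_le _ n hz

lemma co_add (x y : E) : co (x + y) = co x + co y := rfl
lemma co_smul (c : ℂ) (x : E) : co (c • x) = c • co x := rfl
lemma co_sub (x y : E) : co (x - y) = co x - co y := rfl

open Classical in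
noncomputable def ι : E →ₗ[ℂ] (ℂ → ℂ) where
  toFun x z := if z ∈ ball (0 : ℂ) 1 then ∑' n : ℕ, co x n * z ^ n else 0
  map_add' x y := by
    funext z
    simp only [Pi.add_apply]
    split_ifs with hz
    · simp only [co_add, Pi.add_apply, add_mul]; exact (summ x hz).tsum_add (summ y hz)
    · simp
  map_smul' c x := by
    funext z
    simp only [Pi.smul_apply, RingHom.id_apply, smul_eq_mul]
    split_ifs with hz
    · simp only [co_smul, Pi.smul_apply, smul_eq_mul, mul_assoc, tsum_mul_left]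
    · simp

lemma ι_eq (x : E) {z : ℂ} (hz : z ∈ ball (0 : ℂ) 1) : ι x z = ∑' n : ℕ, co x n * z ^ n :=
  if_pos hz

lemma ι_sum (x : E) {z : ℂ} (hz : z ∈ ball (0 : ℂ) 1) :
    HasSum (fun n : ℕ => co x n * z ^ n) (ι x z) := by
  rw [ι_eq x hz]; exact (summ x hz).hasSum

lemma ι_diff (x : E) : DifferentiableOn ℂ (ι x) (ball 0 1) :=
  (Complex.differentiableOn_tsum_of_summable_norm (co_summ x) (fun n => by fun_prop) isOpen_ball
    fun n z hz => term_le _ n hz).congr fun z hz => ι_eq x hz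

lemma uniq {c d : ℕ → ℂ} {φ : ℂ → ℂ}
    (hc : ∀ z ∈ ball (0 : ℂ) 1, HasSum (fun n => c n * z ^ n) (φ z))
    (hd : ∀ z ∈ ball (0 : ℂ) 1, HasSum (fun n => d n * z ^ n) (φ z)) : c = d := by
  have h : ∀ c : ℕ → ℂ, (∀ z ∈ ball (0 : ℂ) 1, HasSum (fun n => c n * z ^ n) (φ z)) →
      HasFPowerSeriesAt φ (FormalMultilinearSeries.ofScalars ℂ c) 0 := fun c hc => by
    rw [hasFPowerSeriesAt_iff]
    filter_upwards [ball_mem_nhds (0 : ℂ) one_pos] with z hz
    simpa [mul_comm] using hc z hz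
  have := (h c hc).eq_formalMultilinearSeries (h d hd)
  funext n
  simpa using congrArg (fun p : FormalMultilinearSeries ℂ ℂ ℂ => p.coeff n) this

lemma pos_ext {x y : ℤ → ℂ} (hx : Pos x) (hy : Pos y) (h : ∀ n : ℕ, x n = y n) : x = y := by
  funext j
  rcases lt_or_ge j 0 with hj | hj
  · rw [hx j hj, hy j hj]
  · lift j to ℕ using hj; exact h j

lemma ι_inj (x : E) (h : ∀ z ∈ ball (0 : ℂ) 1, ι x z = 0) : x = 0 := by
  have := uniq (φ := ι x) (d := 0) (fun z hz => ι_sum x hz) fun z hz => by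
    simp [h z hz]
  exact Subtype.ext (val_inj (pos_ext (co_pos x) (co_pos 0) fun n => congrFun this n))

lemma ι_bd (x : E) {z : ℂ} (hz : z ∈ ball (0 : ℂ) 1) : ‖ι x z‖ ≤ (1 - ‖z‖)⁻¹ * ‖x‖ := by
  rw [ι_eq x hz]
  refine tsum_of_norm_bounded
    ((hasSum_geometric_of_lt_one (norm_nonneg z) (mem_ball_zero_iff.1 hz)).mul_right _) fun n => ?_
  rw [norm_mul, norm_pow, mul_comm]
  gcongr; exact co_le x n

lemma ι_rot (x : E) (θ : ℝ) : ∃ y : E, ∀ z ∈ ball (0 : ℂ) 1,
    ι y z = ι x (Complex.exp (θ * Complex.I) * z) := by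
  refine ⟨op (ok_R (Circle.exp θ)) x, fun z hz => ?_⟩
  rw [ι_eq _ hz, ι_eq _ (by simpa [Complex.norm_exp_ofReal_mul_I] using hz)]
  congr 1; funext n
  rw [co_op, R_apply, zpow_natCast, Circle.coe_pow, Circle.coe_exp, mul_pow]; ring

noncomputable def toA : Polynomial ℂ →ₐ[ℂ] A := Polynomial.aeval (u 1)

lemma toA_co (p : Polynomial ℂ) : Pos (toA p).coeff ∧ ∀ n : ℕ, (toA p).coeff n = p.coeff n := by
  induction p using Polynomial.induction_on' with
  | add p r hp hr =>
    rw [map_add]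
    exact ⟨fun j hj => by simp [hp.1 j hj, hr.1 j hj], fun n => by simp [hp.2, hr.2]⟩
  | monomial k c =>
    have : toA (Polynomial.monomial k c) = c • u k := by
      rw [toA, Polynomial.aeval_monomial, ← v_one, ← v_nat, v_one, Algebra.smul_def]
    rw [this]
    refine ⟨fun j hj => by simp [pos_un k j hj], fun n => ?_⟩
    simp [u_coeff, Polynomial.coeff_monomial]

lemma poly_sum (p : Polynomial ℂ) (z : ℂ) : HasSum (fun n => p.coeff n * z ^ n) (p.eval z) := by
  rw [Polynomial.eval_eq_sum, Polynomial.sum_def]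
  exact hasSum_sum_of_ne_finset_zero fun n hn => by simp [Polynomial.notMem_support_iff.1 hn]

lemma ι_poly (p : Polynomial ℂ) {x : E} (hx : co x = (toA p).coeff) :
    ∀ z ∈ ball (0 : ℂ) 1, ι x z = p.eval z := fun z hz => by
  refine (ι_sum x hz).unique ?_
  simp only [hx, (toA_co p).2]; exact poly_sum p z

lemma poly_ι (p : Polynomial ℂ) {x : E} (hx : ∀ z ∈ ball (0 : ℂ) 1, ι x z = p.eval z) :
    co x = (toA p).coeff := by
  have := uniq (φ := ι x) (fun z hz => ι_sum x hz) fun z hz => by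
    rw [hx z hz]; exact poly_sum p z
  exact pos_ext (co_pos x) (toA_co p).1 fun n => by rw [(toA_co p).2]; exact congrFun this n

lemma ι_dense : Dense {y : E | ∃ p : Polynomial ℂ, ∀ z ∈ ball (0 : ℂ) 1, ι y z = p.eval z} := by
  intro x
  rw [closure_subtype]
  refine closure_mono ?_ x.2
  rintro y ⟨a, ha⟩
  refine ⟨⟨y, Submodule.le_topologicalClosure _ ⟨a, ha⟩⟩,
    ⟨∑ d ∈ a.coeff.support, Polynomial.monomial d.toNat (a.coeff d), ι_poly _ ?_⟩, rfl⟩
  have hp : Pos a.coeff := ha ▸ (val_mem y).1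
  refine ha.trans (pos_ext hp (toA_co _).1 fun n => ?_)
  rw [(toA_co _).2, Polynomial.finsetSum_coeff, sum_eq_single (n : ℤ)]
  · simp
  · intro d hd hn
    have := hp.le (Finsupp.mem_support_iff.1 hd)
    rw [Polynomial.coeff_monomial, if_neg (by omega)]
  · intro h; simp [Finsupp.notMem_support_iff.1 h]

lemma ι_S (x : E) (z : ℂ) (hz : z ∈ ball (0 : ℂ) 1) : ι (S x) z = z * ι x z := by
  refine (ι_sum _ hz).unique ?_
  rw [← hasSum_nat_add_iff' 1]
  convert! (ι_sum x hz).mul_left z using 1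
  · funext n; rw [co_S, act_u]; push_cast; rw [add_sub_cancel_right]; ring
  · simp [co_S, act_u, co_pos x (-1) (by omega)]

lemma ι_B (x : E) (z : ℂ) (hz : z ∈ ball (0 : ℂ) 1) : z * ι (B x) z = ι x z - ι x 0 := by
  have h0 : ι x 0 = co x 0 := by
    rw [ι_eq x (by simp), tsum_eq_single 0] <;> simp +contextual
  refine ((ι_sum _ hz).mul_left z).unique ?_
  convert! (hasSum_nat_add_iff' 1).2 (ι_sum x hz) using 1
  · funext n; rw [co_B, P, if_pos (by omega), act_u]; push_cast; rw [sub_neg_eq_add]; ring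
  · simp [h0]

noncomputable def ev : A →ₐ[ℂ] C(UnitAddCircle, ℂ) :=
  AddMonoidAlgebra.lift ℂ C(UnitAddCircle, ℂ) ℤ
    { toFun := fun d => fourier d.toAdd
      map_one' := by ext x; simp
      map_mul' := fun d d' => by ext x; simp only [toAdd_mul, fourier_add]; rfl }

lemma ev_single (d : ℤ) (c : ℂ) : ev (AddMonoidAlgebra.single d c) = c • fourier d :=
  AddMonoidAlgebra.lift_single _ _ _

noncomputable def FC (n : ℤ) : C(UnitAddCircle, ℂ) →L[ℂ] ℂ :=
  (innerSL ℂ (fourierBasis (T := 1) n)).comp (ContinuousMap.toLp 2 AddCircle.haarAddCircle ℂ)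

lemma FC_eq (n : ℤ) (φ : C(UnitAddCircle, ℂ)) : FC n φ = fourierCoeff φ n := by
  rw [← fourierCoeff_toLp, ← fourierBasis_repr, HilbertBasis.repr_apply_apply]; rfl

lemma FC_ev (n : ℤ) (a : A) : FC n (ev a) = a.coeff n := by
  induction a using AddMonoidAlgebra.induction_linear with
  | zero => simp
  | add a b ha hb => simp [ha, hb]
  | single d r =>
    rw [ev_single, map_smul, FC_eq, fourierCoeff_fourier, AddMonoidAlgebra.coeff_single,
      Finsupp.single_apply, Pi.single_apply]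
    simp [eq_comm]

lemma ev_le (a : A) : ‖ev a‖ₑ ≤ W a := by
  rw [ev, AddMonoidAlgebra.lift_apply, Finsupp.sum]
  refine (enorm_sum_le (ε := C(UnitAddCircle, ℂ)) _ _).trans ?_
  simp only [W, nw, Pi.one_apply, one_mul]
  refine le_trans (sum_le_sum fun d _ => le_of_eq ?_) (ENNReal.sum_le_tsum a.coeff.support)
  rw [← ofReal_norm, ← ofReal_norm, norm_smul]
  simp [fourier_norm]

lemma ev_toA (p : Polynomial ℂ) (x : UnitAddCircle) : ev (toA p) x = p.eval (fourier 1 x) := by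
  rw [toA, ← Polynomial.aeval_algHom_apply, Polynomial.aeval_continuousMap_apply, u, ev_single,
    one_smul]

noncomputable def φ : C(UnitAddCircle, ℂ) := ∑' i, ev (f i)

lemma φ_lim : Tendsto (fun r => ev (F r)) atTop (𝓝 φ) := by
  simp only [F, map_sum]
  refine (Summable.of_enorm ?_).hasSum.tendsto_sum_nat
  refine ne_top_of_le_ne_top ?_ (ENNReal.tsum_le_tsum fun i =>
    (ev_le _).trans ((W_f i).trans (mul_le_mul' le_rfl (e_le i))))
  rw [ENNReal.tsum_mul_left, b_sum]; exact ENNReal.mul_ne_top (by simp) (by simp)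

noncomputable def γ (r : ℕ) : ℝ≥0 := 41 * ((NNReal.sqrt (r + 1))⁻¹ + 2⁻¹ ^ r * 2)

lemma est (r k : ℕ) {x : ℤ → ℂ} (hx : Pos x) :
    N (P (act (∑ i ∈ Ico r k, f i) x)) ≤ γ r * N x := by
  refine (main_est _ (t r) (b r * 2) (fun i hi => ?_) ?_ hx).trans (le_of_eq ?_)
  · rw [t, t, ENNReal.coe_le_coe]
    gcongr
    exact (mem_Ico.1 hi).1
  · rw [sum_Ico_eq_sum_range]
    simp only [b, pow_add, ← mul_sum]
    gcongr; exact b_fin _
  · simp [γ, t, b, ENNReal.inv_pow]

noncomputable def Tn (r : ℕ) : E →L[ℂ] E :=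
  op (ok_P (F r) (c := γ 0) fun x hx => by rw [F, range_eq_Ico]; exact est 0 r hx)

lemma co_Tn (r : ℕ) (x : E) : co (Tn r x) = P (act (F r) (co x)) := rfl

lemma Tn_cauchy : CauchySeq Tn := by
  refine cauchySeq_of_le_tendsto_0' (α := E →L[ℂ] E) (fun r => γ r) (fun r k h => ?_) ?_
  · refine (NormedAddGroup.dist_eq (Tn r) (Tn k)).trans_le ?_
    rw [neg_add_eq_sub]
    refine op_le fun x => ?_
    have h1 := map_sub PL (act (F k) (co x)) (act (F r) (co x))
    change P _ = P _ - P _ at h1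
    rw [sub_apply, co_sub, co_Tn, co_Tn, ← h1, ← act_sub, F, F,
      ← sum_Ico_eq_sub _ h]
    exact est r k (co_pos x)
  · have h1 : Tendsto (fun r : ℕ => (√((r : ℝ) + 1))⁻¹) atTop (𝓝 0) :=
      (Real.tendsto_sqrt_atTop.comp
        (tendsto_atTop_add_const_right _ 1 tendsto_natCast_atTop_atTop)).inv_tendsto_atTop
    have h2 := tendsto_pow_atTop_nhds_zero_of_lt_one (r := (2⁻¹ : ℝ)) (by norm_num) (by norm_num)
    have := (h1.add (h2.mul_const 2)).const_mul 41
    simpa [γ] using this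

lemma co_cont (j : ℤ) : Continuous fun x : E => co x j :=
  (continuous_apply j).comp (val_cont.comp continuous_subtype_val)

lemma sym : ∃ T : E →L[ℂ] E, ∀ (p : Polynomial ℂ) (x : E),
    (∀ z ∈ ball (0 : ℂ) 1, ι x z = p.eval z) → ∀ z ∈ ball (0 : ℂ) 1,
      HasSum (fun n : ℕ => fourierCoeff (fun s => φ s * p.eval (fourier 1 s)) n * z ^ n)
        (ι (T x) z) := by
  obtain ⟨T, hT⟩ := cauchySeq_tendsto_of_complete Tn_cauchy
  refine ⟨T, fun p x hx z hz => ?_⟩
  convert ι_sum (T x) hz using 3 with n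
  have h1 : Tendsto (fun r => co (Tn r x) n) atTop (𝓝 (co (T x) n)) :=
    ((co_cont n).tendsto _).comp (((ContinuousLinearMap.apply ℂ E x).continuous.tendsto T).comp hT)
  have h2 := ((FC n).continuous.tendsto _).comp (φ_lim.mul_const (ev (toA p)))
  have h3 : (fun s => φ s * p.eval (fourier 1 s)) = ⇑(φ * ev (toA p)) := by
    funext s; simp [ev_toA]
  rw [h3, ← FC_eq]
  refine tendsto_nhds_unique h2 (h1.congr fun r => ?_)
  rw [co_Tn, P, if_pos (by omega), poly_ι p hx, act_coeff, Function.comp_apply, ← map_mul, FC_ev]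

lemma not_sym : ¬ ∃ T : E →L[ℂ] E, ∀ (p : Polynomial ℂ) (x : E),
    (∀ z ∈ ball (0 : ℂ) 1, ι x z = p.eval z) → ∀ z ∈ ball (0 : ℂ) 1,
      HasSum (fun n : ℕ => fourierCoeff (fun s => φ s * φ s * p.eval (fourier 1 s)) n * z ^ n)
        (ι (T x) z) := by
  rintro ⟨T, hT⟩
  set x := el _ (toA_co 1).1
  have h1 := uniq (fun z hz => ι_sum (T x) hz) (hT 1 x (ι_poly 1 rfl))
  refine (val_mem (T x).1).2 (blow (tendsto_pi_nhds.2 fun j => ?_))
  rcases lt_or_ge j 0 with hj | hj
  · have := co_pos (T x) j hj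
    rw [co] at this
    simp [this, P, hj.not_ge]
  · lift j to ℕ using hj
    have h2 := ((FC j).continuous.tendsto _).comp (φ_lim.mul φ_lim)
    have h3 := congrFun h1 j
    have h4 : (fun s => φ s * φ s * (1 : Polynomial ℂ).eval (fourier 1 s)) = ⇑(φ * φ) := by
      funext s; simp
    simp only [h4, ← FC_eq, co] at h3
    rw [h3]
    refine h2.congr fun r => ?_
    rw [P, if_pos (by omega), Function.comp_apply, ← map_mul, FC_ev]

end Pool.Agent.H.MP_3f635c_an
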